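import Pool.Agent.Helper1.DS.Upper
import Pool.Agent.Helper1.DS.Lower

/-!
# A lower bound for the number of independent dominating sets of every projective plane
-/

set_option autoImplicit false

namespace Pool.Agent.Helper99.DS

open Finset Pool.Agent.Helper1.DS

section count

variable {P L : Type*} [Fintype P] [Fintype L] {r : P → L → Prop} {q : ℕ}

open scoped Classical in
/-- the number of lines through `x` which miss the points of `f` -/
noncomputable def tt99 (r : P → L → Prop) (x : P) {k : ℕ} (f : Fin k → P) : ℕ :=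
  (univ.filter fun l : L => r x l ∧ ∀ i, ¬ r (f i) l).card

open scoped Classical in
theorem card_miss99 (A : Finset P) (k : ℕ) :
    (univ.filter fun f : Fin k → P => ∀ i, f i ∈ A).card = A.card ^ k := by
  rw [← Fintype.card_piFinset_const]
  congr 1
  ext f
  simp [Fintype.mem_piFinset]

open scoped Classical in
theorem tt_sum99 (h1 : IsPl r q) (h2 : IsPl (fun (l : L) (p : P) => r p l) q) (x : P) (k : ℕ) :
    ∑ f : Fin k → P, (tt99 r x f : ℝ) = (q + 1) * ((q : ℝ) ^ 2) ^ k := by
  have hc : ∀ l : L, (univ.filter fun f : Fin k → P => ∀ i, ¬ r (f i) l).card = (q ^ 2) ^ k := by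
    intro l
    have h3 := card_miss99 (univ.filter fun p : P => ¬ r p l) k
    simp only [Finset.mem_filter, Finset.mem_univ, true_and] at h3
    rw [h3]
    congr 1
    have h4 := h2.deg l
    have h5 := Finset.card_filter_add_card_filter_not (s := (univ : Finset P)) (fun p => r p l)
    rw [h4, Finset.card_univ, h2.card] at h5
    omega
  have h3 : ∀ f : Fin k → P, (tt99 r x f : ℝ) =
      ∑ l ∈ univ.filter (fun l : L => r x l), if (∀ i, ¬ r (f i) l) then (1 : ℝ) else 0 := by
    intro f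
    unfold tt99
    rw [Finset.sum_boole, Finset.filter_filter]
  simp only [h3]
  rw [Finset.sum_comm]
  have h4 : ∀ l ∈ univ.filter (fun l : L => r x l),
      ∑ f : Fin k → P, (if (∀ i, ¬ r (f i) l) then (1 : ℝ) else 0) = ((q : ℝ) ^ 2) ^ k := by
    intro l _
    rw [Finset.sum_boole, hc l]
    push_cast
    rfl
  rw [Finset.sum_congr rfl h4, Finset.sum_const, h1.deg x, nsmul_eq_mul]
  push_cast
  ring

open scoped Classical in
theorem tt_sq99 (h1 : IsPl r q) (h2 : IsPl (fun (l : L) (p : P) => r p l) q) (x : P) (k : ℕ) :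
    ∑ f : Fin k → P, (tt99 r x f : ℝ) ^ 2 ≤ (q + 1) * ((q : ℝ) ^ 2) ^ k +
      (q + 1) ^ 2 * ((q : ℝ) ^ 2 - q) ^ k := by
  have hqq : q ≤ q ^ 2 := by nlinarith [Nat.zero_le q, sq_nonneg q, Nat.le_self_pow two_ne_zero q]
  have hc : ∀ l l' : L, l ≠ l' →
      (univ.filter fun f : Fin k → P => (∀ i, ¬ r (f i) l) ∧ ∀ i, ¬ r (f i) l').card =
        (q ^ 2 - q) ^ k := by
    intro l l' hl
    have h3 := card_miss99 (univ.filter fun p : P => ¬ r p l ∧ ¬ r p l') k
    simp only [Finset.mem_filter, Finset.mem_univ, true_and, forall_and] at h3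
    rw [h3]
    congr 1
    have h4 := h2.deg l
    have h4' := h2.deg l'
    have h6 := h2.pair l l' hl
    have h5 := Finset.card_filter_add_card_filter_not (s := (univ : Finset P)) (fun p => r p l)
    have h7 := Finset.card_filter_add_card_filter_not (s := univ.filter fun p : P => ¬ r p l)
      (fun p => r p l')
    have h8 := Finset.card_filter_add_card_filter_not (s := univ.filter fun p : P => r p l')
      (fun p => r p l)
    rw [Finset.filter_filter, Finset.filter_filter] at h7 h8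
    have e1 : (univ.filter fun p : P => r p l' ∧ r p l) = univ.filter fun p => r p l ∧ r p l' :=
      Finset.filter_congr fun p _ => and_comm
    have e2 : (univ.filter fun p : P => r p l' ∧ ¬ r p l) = univ.filter fun p => ¬ r p l ∧ r p l' :=
      Finset.filter_congr fun p _ => and_comm
    rw [e1, e2, h6, h4'] at h8
    rw [h4, Finset.card_univ, h2.card] at h5
    omega
  have h3 : ∀ f : Fin k → P, (tt99 r x f : ℝ) =
      ∑ l ∈ univ.filter (fun l : L => r x l), if (∀ i, ¬ r (f i) l) then (1 : ℝ) else 0 := by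
    intro f
    unfold tt99
    rw [Finset.sum_boole, Finset.filter_filter]
  have h4 : ∀ f : Fin k → P, (tt99 r x f : ℝ) ^ 2 ≤ (tt99 r x f : ℝ) +
      ∑ l ∈ univ.filter (fun l : L => r x l), ∑ l' ∈ univ.filter (fun l : L => r x l),
        if l ≠ l' ∧ (∀ i, ¬ r (f i) l) ∧ (∀ i, ¬ r (f i) l') then (1 : ℝ) else 0 := by
    intro f
    rw [sq, h3 f, Finset.sum_mul_sum, ← Finset.sum_add_distrib]
    refine Finset.sum_le_sum fun l hl => ?_
    rw [← Finset.add_sum_erase _ _ hl]
    refine add_le_add ?_ ?_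
    · split_ifs <;> simp
    · refine le_trans (Finset.sum_le_sum fun l' hl' => ?_)
        (Finset.sum_le_sum_of_subset_of_nonneg (Finset.erase_subset l _) fun _ _ _ => ?_)
      · have hne : l ≠ l' := (Finset.ne_of_mem_erase hl').symm
        by_cases ha : (∀ i, ¬ r (f i) l) <;> by_cases hb : (∀ i, ¬ r (f i) l')
        · rw [if_pos ha, if_pos hb, if_pos ⟨hne, ha, hb⟩, mul_one]
        · rw [if_neg hb, mul_zero]
          split_ifs <;> norm_num
        · rw [if_neg ha, zero_mul]
          split_ifs <;> norm_num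
        · rw [if_neg ha, zero_mul]
          split_ifs <;> norm_num
      · split_ifs <;> norm_num
  refine (Finset.sum_le_sum fun f _ => h4 f).trans ?_
  rw [Finset.sum_add_distrib, tt_sum99 h1 h2]
  refine add_le_add le_rfl ?_
  rw [Finset.sum_comm]
  have h5 : ∀ l ∈ univ.filter (fun l : L => r x l),
      ∑ f : Fin k → P, ∑ l' ∈ univ.filter (fun l : L => r x l),
        (if l ≠ l' ∧ (∀ i, ¬ r (f i) l) ∧ (∀ i, ¬ r (f i) l') then (1 : ℝ) else 0) ≤
      (q + 1) * ((q : ℝ) ^ 2 - q) ^ k := by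
    intro l _
    rw [Finset.sum_comm]
    have h6 : ∀ l' ∈ univ.filter (fun l : L => r x l),
        ∑ f : Fin k → P,
          (if l ≠ l' ∧ (∀ i, ¬ r (f i) l) ∧ (∀ i, ¬ r (f i) l') then (1 : ℝ) else 0) ≤
        ((q : ℝ) ^ 2 - q) ^ k := by
      intro l' _
      have hcast : ((q : ℝ) ^ 2 - q) ^ k = (((q ^ 2 - q) ^ k : ℕ) : ℝ) := by
        push_cast [Nat.cast_sub hqq]
        rfl
      rw [Finset.sum_boole, hcast]
      by_cases hl : l = l'
      · have : (univ.filter fun f : Fin k → P =>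
            l ≠ l' ∧ (∀ i, ¬ r (f i) l) ∧ (∀ i, ¬ r (f i) l')) = ∅ := by
          rw [Finset.filter_eq_empty_iff]
          intro f _ h
          exact h.1 hl
        rw [this, Finset.card_empty]
        exact_mod_cast Nat.zero_le _
      · rw [← hc l l' hl]
        exact_mod_cast Finset.card_le_card fun f hf => by
          rw [Finset.mem_filter] at hf ⊢
          exact ⟨hf.1, hf.2.2⟩
    refine (Finset.sum_le_card_nsmul _ _ _ h6).trans (le_of_eq ?_)
    rw [h1.deg x, nsmul_eq_mul]
    push_cast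
    ring
  refine (Finset.sum_le_card_nsmul _ _ _ h5).trans (le_of_eq ?_)
  rw [h1.deg x, nsmul_eq_mul]
  push_cast
  ring

open scoped Classical in
/-- Chebyshev: the number of `f` for which `x` is in the closure. -/
theorem tt_zero99 (hq : 1 ≤ q) (h1 : IsPl r q) (h2 : IsPl (fun (l : L) (p : P) => r p l) q)
    (x : P) (k : ℕ) :
    ((univ.filter fun f : Fin k → P => tt99 r x f = 0).card : ℝ) * ((q + 1) * ((q : ℝ) ^ 2) ^ k) ≤
      (((q : ℝ) ^ 2 + q + 1) ^ k) ^ 2 := by
  set N : ℝ := ((q : ℝ) ^ 2 + q + 1) ^ k with hN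
  set a : ℝ := (q + 1) * ((q : ℝ) ^ 2) ^ k with ha
  have hq' : (1 : ℝ) ≤ q := by exact_mod_cast hq
  have hNpos : 0 < N := by positivity
  have hapos : 0 < a := by positivity
  have hcardF : (∑ _f : Fin k → P, (1 : ℝ)) = N := by
    rw [Finset.sum_const, Finset.card_univ, Fintype.card_fun, Fintype.card_fin, h2.card,
      nsmul_eq_mul, mul_one, hN]
    push_cast
    ring
  set m : ℝ := a / N with hm
  have hmpos : 0 < m := by positivity
  have hmN : m * N = a := by rw [hm]; field_simp
  have h3 : ((univ.filter fun f : Fin k → P => tt99 r x f = 0).card : ℝ) * m ^ 2 ≤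
      ∑ f : Fin k → P, ((tt99 r x f : ℝ) - m) ^ 2 := by
    rw [← nsmul_eq_mul]
    refine (Finset.card_nsmul_le_sum _ (fun f => ((tt99 r x f : ℝ) - m) ^ 2) _ ?_).trans
      (Finset.sum_le_sum_of_subset_of_nonneg (Finset.filter_subset _ _) fun _ _ _ => sq_nonneg _)
    intro f hf
    rw [Finset.mem_filter] at hf
    simp only [hf.2]
    rw [Nat.cast_zero, zero_sub, neg_sq]
  have h4 : ∑ f : Fin k → P, ((tt99 r x f : ℝ) - m) ^ 2 =
      ∑ f : Fin k → P, (tt99 r x f : ℝ) ^ 2 - m ^ 2 * N := by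
    have h5 : ∀ f : Fin k → P, ((tt99 r x f : ℝ) - m) ^ 2 =
        (tt99 r x f : ℝ) ^ 2 - 2 * m * (tt99 r x f : ℝ) + m ^ 2 * 1 := fun f => by ring
    simp only [h5]
    rw [Finset.sum_add_distrib, Finset.sum_sub_distrib, ← Finset.mul_sum, ← Finset.mul_sum,
      tt_sum99 h1 h2, hcardF, ← ha, ← hmN]
    ring
  have h5 : (q + 1 : ℝ) ^ 2 * ((q : ℝ) ^ 2 - q) ^ k ≤ m ^ 2 * N := by
    have h6 : ((q : ℝ) ^ 2 - q) ^ k * N ≤ (((q : ℝ) ^ 2) ^ k) ^ 2 := by
      rw [hN, ← mul_pow, ← pow_mul, mul_comm k 2, pow_mul]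
      refine pow_le_pow_left₀ ?_ ?_ k
      · have : 0 ≤ (q : ℝ) ^ 2 - q := by nlinarith
        exact mul_nonneg this (by positivity)
      · nlinarith
    have h7 : m ^ 2 * N = a ^ 2 / N := by rw [hm]; field_simp
    rw [h7, le_div_iff₀ hNpos, ha, mul_pow, mul_assoc]
    exact mul_le_mul_of_nonneg_left h6 (by positivity)
  have h6 : ((univ.filter fun f : Fin k → P => tt99 r x f = 0).card : ℝ) * m ^ 2 ≤ m * N := by
    have h7 := tt_sq99 h1 h2 x k
    rw [← ha] at h7
    rw [hmN]
    linarith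
  have h7 : ((univ.filter fun f : Fin k → P => tt99 r x f = 0).card : ℝ) * m ≤ N := by
    have h8 : (((univ.filter fun f : Fin k → P => tt99 r x f = 0).card : ℝ) * m) * m ≤ N * m := by
      calc _ = ((univ.filter fun f : Fin k → P => tt99 r x f = 0).card : ℝ) * m ^ 2 := by ring
        _ ≤ m * N := h6
        _ = N * m := by ring
    exact le_of_mul_le_mul_right h8 hmpos
  calc ((univ.filter fun f : Fin k → P => tt99 r x f = 0).card : ℝ) * a
      = (((univ.filter fun f : Fin k → P => tt99 r x f = 0).card : ℝ) * m) * N := by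
        rw [← hmN]; ring
    _ ≤ N * N := mul_le_mul_of_nonneg_right h7 hNpos.le
    _ = N ^ 2 := by ring

end count

section pl

variable {P L : Type*} [Membership P L] [Fintype P] [Fintype L] {q : ℕ}

open scoped Classical in
/-- the number of independent dominating sets, all planes -/
theorem closures99 (hq : 1 ≤ q) (h1 : IsPl (fun (p : P) (l : L) => p ∈ l) q)
    (h2 : IsPl (fun (l : L) (p : P) => p ∈ l) q) (k : ℕ) :
    ((q : ℝ) ^ 2 + q + 1) ^ k ≤ 2 * (iNum P L : ℝ) *
      (2 * ((q : ℝ) ^ 2 + q + 1) ^ (k + 1) / ((q + 1) * ((q : ℝ) ^ 2) ^ k)) ^ k := by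
  set n : ℝ := (q : ℝ) ^ 2 + q + 1 with hn
  set a : ℝ := (q + 1) * ((q : ℝ) ^ 2) ^ k with ha
  have hq' : (1 : ℝ) ≤ q := by exact_mod_cast hq
  have hnpos : 0 < n := by positivity
  have hapos : 0 < a := by positivity
  set r : P → L → Prop := fun p l => p ∈ l with hr
  set t : ℝ := 2 * n ^ (k + 1) / a with ht
  have htpos : 0 < t := by positivity
  set T : ℕ := ⌊t⌋₊ with hT
  have hT1 : (T : ℝ) ≤ t := Nat.floor_le htpos.le
  have hT2 : t < T + 1 := Nat.lt_floor_add_one t
  have hcardP : (Fintype.card P : ℝ) = n := by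
    rw [h2.card, hn]
    push_cast
    ring
  have hcardF : (Fintype.card (Fin k → P) : ℝ) = n ^ k := by
    rw [Fintype.card_fun, Fintype.card_fin, Nat.cast_pow, hcardP]
  let Q : (Fin k → P) → Finset P := fun f => univ.filter fun x => tt99 r x f = 0
  let D : (Fin k → P) → Set P × Set L := fun f => ({x | tt99 r x f = 0}, {l | ∀ i, f i ∉ l})
  have htt : ∀ (x : P) (f : Fin k → P), tt99 r x f = 0 ↔ ∀ l : L, x ∈ l → ∃ i, f i ∈ l := by
    intro x f
    unfold tt99
    rw [Finset.card_eq_zero, Finset.filter_eq_empty_iff]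
    constructor
    · intro h l hl
      by_contra hcon
      push Not at hcon
      exact h (Finset.mem_univ l) ⟨hl, hcon⟩
    · rintro h l - ⟨hl, hcon⟩
      obtain ⟨i, hi⟩ := h l hl
      exact hcon i hi
  have hself : ∀ (f : Fin k → P) i, tt99 r (f i) f = 0 := fun f i =>
    (htt _ _).2 fun l hl => ⟨i, hl⟩
  have hD : ∀ f, IsDom (D f) ∧ IsInd (D f) := by
    intro f
    refine ⟨⟨?_, ?_⟩, ?_⟩
    · intro p hp
      have hp' : ¬ tt99 r p f = 0 := hp
      rw [htt] at hp'
      push Not at hp'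
      obtain ⟨l, hl, hl'⟩ := hp'
      exact ⟨l, hl', hl⟩
    · intro l hl
      have hl' : ¬ ∀ i, f i ∉ l := hl
      push Not at hl'
      obtain ⟨i, hi⟩ := hl'
      exact ⟨f i, hself f i, hi⟩
    · intro p hp l hl hpl
      obtain ⟨i, hi⟩ := (htt p f).1 hp l hpl
      exact hl i hi
  -- the bad functions
  set G : Finset (Fin k → P) := univ.filter fun f => (Q f).card ≤ T with hG
  set Bd : Finset (Fin k → P) := univ.filter fun f => ¬ (Q f).card ≤ T with hBd
  have hGB : (G.card : ℝ) + Bd.card = n ^ k := by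
    rw [← hcardF, ← Nat.cast_add, hG, hBd, Finset.card_filter_add_card_filter_not,
      Finset.card_univ]
  have hsum : ∑ f : Fin k → P, ((Q f).card : ℝ) ≤ n * ((n ^ k) ^ 2 / a) := by
    have h3 : ∀ f : Fin k → P, ((Q f).card : ℝ) = ∑ x : P, if tt99 r x f = 0 then (1 : ℝ) else 0 :=
      fun f => by rw [Finset.sum_boole]
    simp only [h3]
    rw [Finset.sum_comm]
    have h4 : ∀ x ∈ (univ : Finset P), ∑ f : Fin k → P, (if tt99 r x f = 0 then (1 : ℝ) else 0) ≤
        (n ^ k) ^ 2 / a := by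
      intro x _
      rw [Finset.sum_boole, le_div_iff₀ hapos]
      exact tt_zero99 hq h1 h2 x k
    refine (Finset.sum_le_card_nsmul _ _ _ h4).trans (le_of_eq ?_)
    rw [Finset.card_univ, nsmul_eq_mul, hcardP]
  have hbad : (Bd.card : ℝ) * t ≤ n * ((n ^ k) ^ 2 / a) := by
    refine le_trans ?_ hsum
    refine le_trans ?_ (Finset.sum_le_sum_of_subset_of_nonneg (Finset.subset_univ Bd)
      fun _ _ _ => Nat.cast_nonneg _)
    rw [← nsmul_eq_mul]
    refine Finset.card_nsmul_le_sum _ _ _ fun f hf => ?_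
    rw [hBd, Finset.mem_filter, not_le] at hf
    have h5 : ((T + 1 : ℕ) : ℝ) ≤ ((Q f).card : ℝ) := by exact_mod_cast hf.2
    push_cast at h5
    linarith
  have hbad2 : (Bd.card : ℝ) ≤ n ^ k / 2 := by
    have h3 : n * ((n ^ k) ^ 2 / a) = (n ^ k / 2) * t := by
      rw [ht]
      field_simp
      ring
    rw [h3] at hbad
    exact le_of_mul_le_mul_right hbad htpos
  have hgood : n ^ k / 2 ≤ G.card := by linarith
  -- the map to the dominating sets
  let φ : (Fin k → P) → {D : Set P × Set L // IsDom D ∧ IsInd D} := fun f => ⟨D f, hD f⟩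
  have hcount : G.card ≤ T ^ k * (G.image φ).card := by
    refine Finset.card_le_mul_card_image _ _ ?_
    intro b hb
    obtain ⟨f₀, hf₀, rfl⟩ := Finset.mem_image.1 hb
    rw [hG, Finset.mem_filter] at hf₀
    refine le_trans ?_ (Nat.pow_le_pow_left hf₀.2 k)
    rw [← card_miss99 (Q f₀) k]
    refine Finset.card_le_card fun f hf => ?_
    rw [Finset.mem_filter] at hf ⊢
    refine ⟨Finset.mem_univ _, fun i => ?_⟩
    have h3 : D f = D f₀ := congrArg Subtype.val hf.2
    have h4 : (D f).1 = (D f₀).1 := congrArg Prod.fst h3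
    have h5 : f i ∈ (D f).1 := hself f i
    rw [h4] at h5
    exact Finset.mem_filter.2 ⟨Finset.mem_univ _, h5⟩
  have himg : (G.image φ).card ≤ iNum P L := by
    unfold iNum
    rw [Nat.card_eq_fintype_card]
    exact Finset.card_le_univ _
  have hfin : (G.card : ℝ) ≤ t ^ k * iNum P L := by
    have h3 : (G.card : ℝ) ≤ (T : ℝ) ^ k * iNum P L := by
      exact_mod_cast hcount.trans (Nat.mul_le_mul_left _ himg)
    refine h3.trans (mul_le_mul_of_nonneg_right ?_ (Nat.cast_nonneg _))
    exact pow_le_pow_left₀ (Nat.cast_nonneg _) hT1 k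
  linarith

end pl

section plane

open Configuration

variable (P L : Type*) [Membership P L] [ProjectivePlane P L] [Fintype P] [Fintype L]

theorem line_lower99 : 2 ^ (ProjectivePlane.order P L + 1) ≤ iNum P L := by
  classical
  obtain ⟨p₁, p₂, p₃, l₁, l₂, l₃, h12, -⟩ := ProjectivePlane.exists_config (P := P) (L := L)
  have hcard : Nat.card {p : P // p ∈ l₁} = ProjectivePlane.order P L + 1 :=
    ProjectivePlane.pointCount_eq P l₁
  rw [← hcard]
  have hex : ∀ p : P, ∃ l : L, p ∈ l ∧ l ≠ l₁ := by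
    intro p
    by_contra hcon
    push Not at hcon
    have h1 := (isPl P L).deg p
    have h2 : (univ.filter fun l : L => p ∈ l).card ≤ 1 := by
      rw [Finset.card_le_one]
      intro l hl l' hl'
      rw [Finset.mem_filter] at hl hl'
      rw [hcon l hl.2, hcon l' hl'.2]
    have h3 : (univ.filter fun l : L => p ∈ l).card = ProjectivePlane.order P L + 1 := by
      convert h1
    have h4 := ProjectivePlane.one_lt_order P L
    omega
  choose g hg1 hg2 using hex
  refine two_pow_le_iNum (Ω := {p : P // p ∈ l₁}) (fun p => p.1) (fun p => g p.1) ?_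
  intro p p'
  constructor
  · intro h
    rcases Nondegenerate.eq_or_eq p.2 p'.2 h (hg1 p'.1) with h1 | h1
    · exact Subtype.ext h1
    · exact absurd h1.symm (hg2 p'.1)
  · rintro rfl
    exact hg1 _

theorem all_lower99 : (ProjectivePlane.order P L : ℝ) *
    (Real.logb 2 (ProjectivePlane.order P L)) ^ 2 / 40 ≤ Real.logb 2 (iNum P L) := by
  classical
  set q := ProjectivePlane.order P L with hq
  have hq1 : 1 < q := ProjectivePlane.one_lt_order P L
  have hq1' : (1 : ℝ) < q := by exact_mod_cast hq1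
  have hqpos : (0 : ℝ) < q := by linarith
  set ℓ : ℝ := Real.logb 2 q with hℓ
  have hℓ0 : 0 ≤ ℓ := Real.logb_nonneg (by norm_num) hq1'.le
  have hl := line_lower99 P L
  rw [← hq] at hl
  have hipos : (0 : ℝ) < (iNum P L : ℝ) := by
    have : 0 < 2 ^ (q + 1) := by positivity
    exact_mod_cast lt_of_lt_of_le this hl
  by_cases hlt : q < 16
  · have h1 : ((q + 1 : ℕ) : ℝ) ≤ Real.logb 2 (iNum P L) := by
      rw [Real.le_logb_iff_rpow_le (by norm_num) hipos, Real.rpow_natCast]
      exact_mod_cast hl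
    have h2 : ℓ ≤ 4 := by
      rw [hℓ, Real.logb_le_iff_le_rpow (by norm_num) hqpos]
      have h3 : (q : ℝ) ≤ 16 := by exact_mod_cast hlt.le
      have h4 : ((2 : ℝ) ^ (4 : ℝ)) = 16 := by
        rw [show (4 : ℝ) = ((4 : ℕ) : ℝ) by norm_num, Real.rpow_natCast]
        norm_num
      rw [h4]
      exact h3
    have h3 : ℓ ^ 2 ≤ 16 := by nlinarith
    have h4 : (q : ℝ) * ℓ ^ 2 ≤ q * 16 := mul_le_mul_of_nonneg_left h3 hqpos.le
    push_cast at h1
    linarith
  · have hq16 : (16 : ℝ) ≤ q := by exact_mod_cast not_lt.1 hlt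
    have hℓ4 : 4 ≤ ℓ := by
      rw [hℓ, Real.le_logb_iff_rpow_le (by norm_num) hqpos]
      have h4 : ((2 : ℝ) ^ (4 : ℝ)) = 16 := by
        rw [show (4 : ℝ) = ((4 : ℕ) : ℝ) by norm_num, Real.rpow_natCast]
        norm_num
      rw [h4]
      exact hq16
    set k : ℕ := ⌊(q : ℝ) * ℓ / 8⌋₊ with hk
    have hk1 : (k : ℝ) ≤ q * ℓ / 8 := Nat.floor_le (by positivity)
    have hk2 : q * ℓ / 8 - 1 < (k : ℝ) := by
      have := Nat.lt_floor_add_one ((q : ℝ) * ℓ / 8)
      linarith
    have hqℓ : 64 ≤ (q : ℝ) * ℓ := by nlinarith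
    have hk3 : q * ℓ / 16 ≤ (k : ℝ) := by linarith
    have hmain := closures99 hq1.le (isPl P L) (isPl' P L) k
    set n : ℝ := (q : ℝ) ^ 2 + q + 1 with hn
    have hnpos : 0 < n := by positivity
    set β : ℝ := (q + 1) / 2 * ((q : ℝ) ^ 2 / n) ^ k with hβ
    have hβpos : 0 < β := by positivity
    have h1 : (2 * n ^ (k + 1) / ((q + 1) * ((q : ℝ) ^ 2) ^ k)) = n / β := by
      rw [hβ, div_pow]
      field_simp
      ring
    rw [h1, div_pow] at hmain
    have h2 : β ^ k ≤ 2 * (iNum P L : ℝ) := by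
      have h3 : n ^ k * β ^ k ≤ n ^ k * (2 * (iNum P L : ℝ)) := by
        have h4 : 2 * (iNum P L : ℝ) * (n ^ k / β ^ k) * β ^ k = n ^ k * (2 * (iNum P L : ℝ)) := by
          field_simp
        rw [← h4]
        exact mul_le_mul_of_nonneg_right hmain (by positivity)
      exact le_of_mul_le_mul_left h3 (by positivity)
    have h3 : (k : ℝ) * Real.logb 2 β ≤ 1 + Real.logb 2 (iNum P L) := by
      have h4 := Real.logb_le_logb_of_le (b := 2) (by norm_num) (by positivity) h2
      rw [Real.logb_pow, Real.logb_mul (by norm_num) hipos.ne', Real.logb_self_eq_one (by norm_num)]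
        at h4
      exact h4
    have hlog2 : (0.69 : ℝ) < Real.log 2 := by
      have := Real.log_two_gt_d9
      linarith
    have h4 : Real.logb 2 (n / (q : ℝ) ^ 2) ≤ 2 / q := by
      have h5 : n / (q : ℝ) ^ 2 = 1 + (1 / q + 1 / (q : ℝ) ^ 2) := by
        rw [hn]
        field_simp
        ring
      have h6 : Real.log (n / (q : ℝ) ^ 2) ≤ 1 / q + 1 / (q : ℝ) ^ 2 := by
        rw [h5]
        have := Real.log_le_sub_one_of_pos (x := 1 + (1 / q + 1 / (q : ℝ) ^ 2)) (by positivity)
        linarith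
      have h7 : 1 / (q : ℝ) ^ 2 ≤ 1 / 16 * (1 / q) := by
        have h9 : 1 / (q : ℝ) ^ 2 = 1 / q * (1 / q) := by
          field_simp
        rw [h9]
        refine mul_le_mul_of_nonneg_right ?_ (by positivity)
        exact one_div_le_one_div_of_le (by norm_num) hq16
      unfold Real.logb
      rw [div_le_div_iff₀ (by linarith) hqpos]
      have h8 : Real.log (n / (q : ℝ) ^ 2) * q ≤ 17 / 16 := by
        calc Real.log (n / (q : ℝ) ^ 2) * q ≤ (17 / 16 * (1 / q)) * q := by
              refine mul_le_mul_of_nonneg_right ?_ hqpos.le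
              linarith
          _ = 17 / 16 := by field_simp
      linarith
    have h5 : ℓ / 2 ≤ Real.logb 2 β := by
      have h6 : Real.logb 2 β = Real.logb 2 ((q + 1) / 2) - k * Real.logb 2 (n / (q : ℝ) ^ 2) := by
        rw [hβ, Real.logb_mul (by positivity) (by positivity), Real.logb_pow]
        have h7 : Real.logb 2 ((q : ℝ) ^ 2 / n) = - Real.logb 2 (n / (q : ℝ) ^ 2) := by
          rw [← Real.logb_inv, inv_div]
        rw [h7]
        ring
      have h7 : ℓ - 1 ≤ Real.logb 2 ((q + 1) / 2) := by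
        have h8 : Real.logb 2 ((q : ℝ) / 2) ≤ Real.logb 2 ((q + 1) / 2) :=
          Real.logb_le_logb_of_le (by norm_num) (by positivity) (by linarith)
        rw [Real.logb_div hqpos.ne' (by norm_num), Real.logb_self_eq_one (by norm_num)] at h8
        exact h8
      have h8 : (k : ℝ) * Real.logb 2 (n / (q : ℝ) ^ 2) ≤ ℓ / 4 := by
        calc (k : ℝ) * Real.logb 2 (n / (q : ℝ) ^ 2) ≤ k * (2 / q) :=
              mul_le_mul_of_nonneg_left h4 (Nat.cast_nonneg _)
          _ ≤ (q * ℓ / 8) * (2 / q) := mul_le_mul_of_nonneg_right hk1 (by positivity)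
          _ = ℓ / 4 := by field_simp; norm_num
      rw [h6]
      linarith
    have h6 : (q * ℓ / 16) * (ℓ / 2) ≤ k * Real.logb 2 β :=
      mul_le_mul hk3 h5 (by positivity) (Nat.cast_nonneg _)
    have h7 : 256 ≤ (q : ℝ) * ℓ ^ 2 := by nlinarith
    have h8 : (q * ℓ / 16) * (ℓ / 2) = q * ℓ ^ 2 / 32 := by ring
    linarith

end plane

end Pool.Agent.Helper99.DS
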