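import Pool.Agent.Helper1.DS.Lower

/-!
# Tangent systems in the plane over a finite field from subfields
-/

set_option autoImplicit false

namespace Pool.Agent.Helper99.DS

open Polynomial Module Pool.Agent.Helper1.DS

open scoped LinearAlgebra.Projectivization

section gen

variable (k F : Type*) [Field k] [Field F] [Algebra k F] [Finite F]

/-- a generator: evaluation is injective on polynomials of small degree -/
theorem exists_gen99 : ∃ γ : F, ∀ P : k[X], P.degree < (finrank k F : WithBot ℕ) →
    aeval γ P = 0 → P = 0 := by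
  have : Finite k := Finite.of_injective _ (algebraMap k F).injective
  obtain ⟨γ, hγ⟩ := Field.exists_primitive_element_of_finite_top k F
  refine ⟨γ, fun P hP h0 => ?_⟩
  have hint : IsIntegral k γ := Algebra.IsIntegral.isIntegral γ
  have hdeg : (minpoly k γ).natDegree = finrank k F := by
    rw [← IntermediateField.adjoin.finrank hint, hγ, IntermediateField.finrank_top']
  by_contra hne
  have h1 := minpoly.degree_le_of_ne_zero k γ hne h0
  rw [Polynomial.degree_eq_natDegree (minpoly.ne_zero hint), hdeg] at h1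
  exact absurd h1 (not_le.2 hP)

/-- the bijection given by evaluation at a generator -/
theorem exists_equiv99 : ∃ γ : F, (∀ P : k[X], P.degree < (finrank k F : WithBot ℕ) →
    aeval γ P = 0 → P = 0) ∧ ∀ x : F, ∃ P : k[X], P.degree < (finrank k F : WithBot ℕ) ∧
      aeval γ P = x := by
  obtain ⟨γ, hγ⟩ := exists_gen99 k F
  refine ⟨γ, hγ, fun x => ?_⟩
  let f : degreeLT k (finrank k F) →ₗ[k] F :=
    (aeval γ).toLinearMap.comp (degreeLT k (finrank k F)).subtype
  have hinj : Function.Injective f := by
    rw [injective_iff_map_eq_zero]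
    intro P hP
    apply Subtype.ext
    exact hγ P.1 (mem_degreeLT.1 P.2) hP
  have hfr : finrank k (degreeLT k (finrank k F)) = finrank k F := by
    rw [(degreeLTEquiv k (finrank k F)).finrank_eq, finrank_fin_fun]
  have : FiniteDimensional k (degreeLT k (finrank k F)) :=
    (degreeLTEquiv k (finrank k F)).symm.finiteDimensional
  have hsurj := (LinearMap.injective_iff_surjective_of_finrank_eq_finrank hfr).1 hinj
  obtain ⟨P, hP⟩ := hsurj x
  exact ⟨P.1, mem_degreeLT.1 P.2, hP⟩

end gen

/-- a tangent system from polynomials -/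
theorem poly_lower99 {k F : Type*} [Field k] [Field F] [Algebra k F] [Finite F] {n a : ℕ} {γ : F}
    (hγ : ∀ P : k[X], P.degree < (n : WithBot ℕ) → aeval γ P = 0 → P = 0)
    (hn : 2 * a < n) {Ω : Type*} [Finite Ω] (X Y S : Ω → k[X]) (hX : ∀ i, (X i).natDegree ≤ a)
    (hS : ∀ i, (S i).natDegree ≤ a) (hY : ∀ i, (Y i).natDegree < n)
    (h : ∀ i j, Y i - Y j = S j * (X i - X j) → i = j) :
    2 ^ Nat.card Ω ≤ iNum (ℙ F (Fin 3 → F)) (ℙ F (Fin 3 → F)) := by
  refine aff_lower (fun i => aeval γ (X i)) (fun i => aeval γ (Y i)) (fun i => aeval γ (S i))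
    fun i j hij => ?_
  apply h
  rw [← sub_eq_zero]
  apply hγ
  · refine lt_of_le_of_lt degree_le_natDegree ?_
    have h1 : (Y i - Y j).natDegree < n :=
      lt_of_le_of_lt (natDegree_sub_le _ _) (max_lt (hY i) (hY j))
    have h2 : (S j * (X i - X j)).natDegree < n := by
      refine lt_of_le_of_lt (natDegree_mul_le.trans (add_le_add (hS j)
        ((natDegree_sub_le _ _).trans (max_le (hX i) (hX j))))) ?_
      omega
    exact_mod_cast lt_of_le_of_lt (natDegree_sub_le _ _) (max_lt h1 h2)
  · rw [map_sub, map_sub, map_mul, map_sub, sub_eq_zero]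
    exact hij

/-- helper68's construction: polynomials of degree `< 2 r` over the subfield. -/
theorem ext_lower99 {k F : Type*} [Field k] [Field F] [Algebra k F] [Finite F] {r : ℕ}
    (hr : 4 * r ≤ finrank k F + 1) :
    2 ^ (Nat.card k ^ (finrank k F + r)) ≤ iNum (ℙ F (Fin 3 → F)) (ℙ F (Fin 3 → F)) := by
  classical
  have hkf : Finite k := Finite.of_injective _ (algebraMap k F).injective
  have hfd : FiniteDimensional k F := Module.Finite.of_finite
  rcases Nat.eq_zero_or_pos r with rfl | hr0
  · rw [add_zero, ← Module.natCard_eq_pow_finrank (K := k) (V := F)]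
    exact aff_lower (Ω := F) (fun _ => 0) (fun i => i) (fun _ => 0) (fun i j h => by
      rw [sub_self, mul_zero, sub_eq_zero] at h
      exact h)
  have : Fintype k := Fintype.ofFinite k
  obtain ⟨p, hp⟩ := CharP.exists k
  obtain ⟨f, hpp, hf⟩ := FiniteField.card k p
  have : Fact p.Prime := ⟨hpp⟩
  have hm0 : 2 * r ≠ 0 := by omega
  have : NeZero (2 * r) := ⟨hm0⟩
  let K := FiniteField.Extension k p (2 * r)
  have hKcard : Nat.card K = Nat.card k ^ (2 * r) := FiniteField.natCard_extension k p (2 * r)
  have hKfr : finrank k K = 2 * r := FiniteField.finrank_extension k p (2 * r)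
  have hKfin : Finite K := Module.finite_of_finite k
  have hcharK : CharP K p := charP_of_injective_algebraMap (algebraMap k K).injective p
  have : ExpChar K p := inferInstance
  set s := Nat.card k with hs
  have hsf : s = p ^ (f : ℕ) := by rw [hs, Nat.card_eq_fintype_card, hf]
  have hs2 : 2 ≤ s := by
    have : 1 < Nat.card k := Finite.one_lt_card
    omega
  let σ : K →+* K := iterateFrobenius K p (f * r)
  have hσ : ∀ x, σ x = x ^ (s ^ r) := by
    intro x
    rw [hsf, ← pow_mul]
    exact iterateFrobenius_def p (f * r) x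
  have hσσ : ∀ x, σ (σ x) = x := by
    intro x
    rw [hσ, hσ, ← pow_mul, ← pow_add, ← two_mul, ← hKcard]
    have : Fintype K := Fintype.ofFinite K
    rw [Nat.card_eq_fintype_card]
    exact FiniteField.pow_card x
  obtain ⟨δ, -, hδ⟩ := exists_equiv99 k K
  obtain ⟨γ, hγ⟩ := exists_gen99 k F
  choose p₀ hp₀ hp₁ using hδ
  set n := finrank k F with hn
  have hn0 : 0 < n := finrank_pos
  -- the parameter space
  let Z := K × (Fin n → k)
  let Yp : (Fin n → k) → k[X] := fun c => ((degreeLTEquiv k n).symm c).1
  have hYp : ∀ c, (Yp c).degree < (n : WithBot ℕ) := fun c =>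
    mem_degreeLT.1 ((degreeLTEquiv k n).symm c).2
  have hYinj : Function.Injective Yp :=
    Subtype.val_injective.comp (degreeLTEquiv k n).symm.injective
  let c : Z → K := fun z => z.1 * σ z.1 - (aeval δ (Yp z.2) + σ (aeval δ (Yp z.2)))
  let T : Finset K := (Set.toFinite {x : K | σ x = x}).toFinset
  have hcT : ∀ z, c z ∈ T := by
    intro z
    simp only [T, Set.Finite.mem_toFinset, Set.mem_ofPred_eq, c]
    rw [map_sub, map_mul, map_add, hσσ, hσσ]
    ring
  have hT : T.card ≤ s ^ r := by
    have h1 : Nat.card {x : K | σ x = x} ≤ s ^ r := by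
      have h2 : 2 ≤ s ^ r := hs2.trans (Nat.le_self_pow hr0.ne' s)
      refine card_le_of_roots (p := Polynomial.X ^ (s ^ r) - Polynomial.X) ?_ ?_ ?_
      · intro h0
        have h1 := congrArg (fun p => Polynomial.coeff p (s ^ r)) h0
        simp only [Polynomial.coeff_sub, Polynomial.coeff_X_pow, if_true, Polynomial.coeff_X,
          Polynomial.coeff_zero] at h1
        rw [if_neg (by omega)] at h1
        simp at h1
      · refine (Polynomial.natDegree_sub_le _ _).trans ?_
        rw [Polynomial.natDegree_X_pow, Polynomial.natDegree_X]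
        omega
      · intro x hx
        have h1 : σ x = x := hx
        rw [hσ] at h1
        simp [h1]
    rwa [Nat.card_coe_set_eq, Set.ncard_eq_toFinset_card] at h1
  have : Fintype K := Fintype.ofFinite K
  have hZ : Fintype.card Z = s ^ (2 * r) * s ^ n := by
    rw [← Nat.card_eq_fintype_card, Nat.card_prod, hKcard, Nat.card_fun,
      Nat.card_eq_fintype_card (α := Fin n), Fintype.card_fin]
  obtain ⟨u, -, hu⟩ := Finset.exists_le_card_fiber_of_mul_le_card_of_maps_to
    (s := (Finset.univ : Finset Z)) (t := T) (f := c) (n := s ^ (n + r)) (fun z _ => hcT z)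
    ⟨c (0, 0), hcT _⟩ (by
      rw [Finset.card_univ, hZ]
      calc T.card * s ^ (n + r) ≤ s ^ r * s ^ (n + r) := Nat.mul_le_mul_right _ hT
        _ = s ^ (2 * r) * s ^ n := by rw [← pow_add, ← pow_add]; congr 1; ring)
  refine le_trans (Nat.pow_le_pow_right (by norm_num) hu) ?_
  have hcardΩ : (Finset.univ.filter fun z : Z => c z = u).card = Nat.card {z : Z // c z = u} := by
    rw [Nat.card_eq_fintype_card, Fintype.card_subtype]
  rw [hcardΩ]
  have hdeg : ∀ x, (p₀ x).natDegree ≤ 2 * r - 1 := by
    intro x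
    have h1 := hp₀ x
    rw [hKfr] at h1
    by_cases h0 : p₀ x = 0
    · rw [h0]
      simp
    · rw [degree_eq_natDegree h0] at h1
      have h2 : (p₀ x).natDegree < 2 * r := by exact_mod_cast h1
      omega
  refine poly_lower99 (a := 2 * r - 1) hγ (by omega) (fun z : {z : Z // c z = u} => p₀ z.1.1)
    (fun z => Yp z.1.2) (fun z => p₀ (σ z.1.1)) (fun z => hdeg _) (fun z => hdeg _) ?_ ?_
  · intro z
    by_cases h0 : Yp z.1.2 = 0
    · rw [h0]
      simpa using hn0
    · have h1 := hYp z.1.2
      rw [degree_eq_natDegree h0] at h1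
      exact_mod_cast h1
  · rintro ⟨z, hz⟩ ⟨z', hz'⟩ h
    have h' : Yp z.2 - Yp z'.2 = p₀ (σ z'.1) * (p₀ z.1 - p₀ z'.1) := h
    have h1 := congrArg (aeval δ) h'
    rw [map_sub, map_mul, map_sub, hp₁, hp₁, hp₁] at h1
    have h2 := congrArg σ h1
    rw [map_sub, map_mul, map_sub, hσσ] at h2
    have h3 : c z = c z' := hz.trans hz'.symm
    have h4 : (z.1 - z'.1) * σ (z.1 - z'.1) = 0 := by
      simp only [c] at h3
      rw [map_sub]
      linear_combination h3 + h1 + h2
    have h5 : z.1 = z'.1 := by
      rcases mul_eq_zero.1 h4 with h5 | h5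
      · exact sub_eq_zero.1 h5
      · have : z.1 - z'.1 = 0 := by
          rw [← hσσ (z.1 - z'.1), h5, map_zero]
        exact sub_eq_zero.1 this
    have h6 : Yp z.2 = Yp z'.2 := by
      rw [h5, sub_self, mul_zero] at h'
      exact sub_eq_zero.1 h'
    apply Subtype.ext
    change z = z'
    exact Prod.ext h5 (hYinj h6)

end Pool.Agent.Helper99.DS
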