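import Pool.Agent.Helper1.DS.PrimeOrd

/-!
# Tangent systems from rings with a nondegenerate coordinate
-/

set_option autoImplicit false

namespace Pool.Agent.Helper99.DS

open Finset Module Pool.Agent.Helper1.DS

open scoped LinearAlgebra.Projectivization

section gen

variable {R : Type*} [CommRing R] {d : ℕ} (b : Basis (Fin d) ℤ R)

theorem nd_of_det99 (i₀ : Fin d) (hdet : (gm b i₀).det ≠ 0) {u : R}
    (hu : ∀ w, b.repr (u * w) i₀ = 0) : u = 0 := by
  classical
  by_contra hne
  apply hdet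
  rw [← Matrix.exists_vecMul_eq_zero_iff]
  refine ⟨fun i => b.repr u i, ?_, ?_⟩
  · intro h0
    apply hne
    apply b.repr.injective
    ext i
    rw [map_zero, Finsupp.zero_apply]
    exact congrFun h0 i
  · funext j
    have h1 := hu (b j)
    conv at h1 =>
      lhs
      rw [← b.sum_repr u, Finset.sum_mul, map_sum, Finsupp.finsetSum_apply]
    rw [Matrix.vecMul, dotProduct, Pi.zero_apply, ← h1]
    refine Finset.sum_congr rfl fun i _ => ?_
    unfold gm
    rw [smul_mul_assoc, map_smul, Finsupp.smul_apply, smul_eq_mul]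

theorem det_of_nd99 (i₀ : Fin d) (hnd : ∀ u : R, (∀ w, b.repr (u * w) i₀ = 0) → u = 0) :
    (gm b i₀).det ≠ 0 := by
  classical
  intro hdet
  rw [← Matrix.exists_vecMul_eq_zero_iff] at hdet
  obtain ⟨v, hv, hv0⟩ := hdet
  set z : R := ∑ i, v i • b i with hz
  have hzr : ∀ i, b.repr z i = v i := by
    intro i
    rw [hz]
    exact congrFun (b.repr_sum_self v) i
  have hz0 : z ≠ 0 := by
    intro h
    apply hv
    funext i
    rw [← hzr i, h]
    simp
  apply hz0
  apply hnd
  intro w
  rw [repr_mul, Finset.sum_comm]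
  refine Finset.sum_eq_zero fun j _ => ?_
  have h2 := congrFun hv0 j
  rw [Matrix.vecMul, dotProduct, Pi.zero_apply] at h2
  have h3 : ∑ i, b.repr z i * b.repr w j * b.repr (b i * b j) i₀ =
      b.repr w j * ∑ i, v i * gm b i₀ i j := by
    rw [Finset.mul_sum]
    refine Finset.sum_congr rfl fun i _ => ?_
    rw [hzr]
    unfold gm
    ring
  rw [h3, h2, mul_zero]

/-- The general construction: a ring with a nondegenerate coordinate and a homomorphism to a
finite field which is injective on small elements. -/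
theorem gen_lower99 (i₀ : Fin d) (hdet : (gm b i₀).det ≠ 0) : ∃ C : ℕ, 0 < C ∧
    ∀ (F : Type*) [Field F] [Finite F] (π : R →+* F) (m : ℕ), 1 ≤ m →
      (∀ z : R, (∀ i, |b.repr z i| ≤ (C : ℤ) * (m : ℤ) ^ 2) → π z = 0 → z = 0) →
      ∃ n : ℕ, m ^ (3 * d) ≤ C * m ^ 2 * n ∧ 2 ^ n ≤ iNum (ℙ F (Fin 3 → F)) (ℙ F (Fin 3 → F)) := by
  classical
  set D : ℤ := (gm b i₀).det with hD
  have hD0 : D ≠ 0 := hdet
  set CN : ℤ := 1 + sc b * sa b i₀ with hCN
  set CB : ℤ := 2 * (2 + |D| * d) + 1 with hCB
  have hsc := sc_nonneg b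
  have hsa := sa_nonneg b i₀
  have hCN0 : 0 ≤ CN := by positivity
  have hCB0 : 0 ≤ CB := by positivity
  have hcast : (((CN + CB).toNat + 1 : ℕ) : ℤ) = CN + CB + 1 := by
    push_cast
    rw [Int.toNat_of_nonneg (by positivity)]
  refine ⟨(CN + CB).toNat + 1, Nat.succ_pos _, ?_⟩
  intro F _ _ π m hm hinj
  rw [hcast] at hinj
  let Z := (Fin d → Fin m) × (Fin d → Fin (m ^ 2))
  let xc : Z → Fin d → ℤ := fun z i => ((z.1 i : ℕ) : ℤ)
  let yc : Z → Fin d → ℤ := fun z i => ((z.2 i : ℕ) : ℤ)
  let c : Z → ℤ := fun z => 2 * yc z i₀ - D * ∑ i, xc z i ^ 2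
  set B : ℤ := (2 + |D| * d) * (m : ℤ) ^ 2 with hB
  have hx0 : ∀ z i, 0 ≤ xc z i := fun z i => Int.natCast_nonneg _
  have hx1 : ∀ z i, xc z i < m := fun z i => by
    have h1 := (z.1 i).2
    simp only [xc]
    exact_mod_cast h1
  have hy0 : ∀ z i, 0 ≤ yc z i := fun z i => Int.natCast_nonneg _
  have hy1 : ∀ z i, yc z i < (m : ℤ) ^ 2 := fun z i => by
    have h1 := (z.2 i).2
    simp only [yc]
    exact_mod_cast h1
  have hm0 : (1 : ℤ) ≤ m := by exact_mod_cast hm
  have hcB : ∀ z, |c z| ≤ B := by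
    intro z
    have h1 : |∑ i, xc z i ^ 2| ≤ d * (m : ℤ) ^ 2 := by
      rw [abs_of_nonneg (Finset.sum_nonneg fun i _ => sq_nonneg _)]
      have : ∀ i ∈ (univ : Finset (Fin d)), xc z i ^ 2 ≤ (m : ℤ) ^ 2 := by
        intro i _
        exact pow_le_pow_left₀ (hx0 z i) (hx1 z i).le 2
      have h4 := Finset.sum_le_card_nsmul _ _ _ this
      rw [Finset.card_univ, Fintype.card_fin, nsmul_eq_mul] at h4
      exact h4
    have h5 : |2 * yc z i₀| ≤ 2 * (m : ℤ) ^ 2 := by
      rw [abs_of_nonneg (by have := hy0 z i₀; positivity)]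
      have := hy1 z i₀
      linarith
    calc |c z| ≤ |2 * yc z i₀| + |D * ∑ i, xc z i ^ 2| := abs_sub _ _
      _ ≤ 2 * (m : ℤ) ^ 2 + |D| * (d * (m : ℤ) ^ 2) := by
          rw [abs_mul D]
          exact add_le_add h5 (mul_le_mul_of_nonneg_left h1 (abs_nonneg _))
      _ = B := by rw [hB]; ring
  have hB0 : 0 ≤ B := by positivity
  obtain ⟨u, hu, hmax⟩ := Finset.exists_max_image (Finset.Icc (-B) B)
    (fun u => (univ.filter fun z : Z => c z = u).card) ⟨0, by simp [hB0]⟩
  have hcard : Fintype.card Z = m ^ (3 * d) := by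
    simp only [Z, Fintype.card_prod, Fintype.card_fun, Fintype.card_fin]
    rw [← pow_mul, ← pow_add]
    congr 1
    ring
  set n := (univ.filter fun z : Z => c z = u).card with hn
  have hsum : m ^ (3 * d) ≤ (2 * B + 1).toNat * n := by
    rw [← hcard, ← Finset.card_univ,
      Finset.card_eq_sum_card_fiberwise (f := c) (t := Finset.Icc (-B) B)]
    · refine (Finset.sum_le_card_nsmul _ _ n hmax).trans (le_of_eq ?_)
      rw [Int.card_Icc, smul_eq_mul]
      congr 2
      ring
    · intro z _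
      rw [Finset.mem_coe, Finset.mem_Icc, ← abs_le]
      exact hcB z
  refine ⟨n, ?_, ?_⟩
  · refine hsum.trans (Nat.mul_le_mul_right n ?_)
    rw [Int.toNat_le, Nat.cast_mul, hcast]
    push_cast
    have h1 : 1 ≤ (m : ℤ) ^ 2 := one_le_pow₀ hm0
    have h2 : 2 * B + 1 ≤ CB * (m : ℤ) ^ 2 := by
      rw [hB, hCB]
      linarith
    refine h2.trans (mul_le_mul_of_nonneg_right ?_ (by positivity))
    linarith
  · have hcardΩ : Nat.card {z : Z // c z = u} = n := by
      rw [Nat.card_eq_fintype_card, Fintype.card_subtype]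
    rw [← hcardΩ]
    let X : Z → R := fun z => ∑ i, xc z i • b i
    let Y : Z → R := fun z => ∑ i, yc z i • b i
    have hX : ∀ z i, b.repr (X z) i = xc z i := fun z i => congrFun (b.repr_sum_self (xc z)) i
    have hY : ∀ z i, b.repr (Y z) i = yc z i := fun z i => congrFun (b.repr_sum_self (yc z)) i
    refine aff_lower (Ω := {z : Z // c z = u}) (fun z => π (X z.1)) (fun z => π (Y z.1))
      (fun z => π (ph b i₀ (xc z.1))) ?_
    rintro ⟨z, hz⟩ ⟨z', hz'⟩ h
    have h0 : π (Y z) - π (Y z') = π (ph b i₀ (xc z')) * (π (X z) - π (X z')) := h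
    set w : R := Y z - Y z' - ph b i₀ (xc z') * (X z - X z') with hw
    have hπw : π w = 0 := by
      rw [hw, map_sub, map_sub, map_mul, map_sub, h0, sub_self]
    have hXX : ∀ l, b.repr (X z - X z') l = xc z l - xc z' l := by
      intro l
      rw [map_sub, Finsupp.sub_apply, hX, hX]
    have hwl : ∀ l, |b.repr w l| ≤ CN * (m : ℤ) ^ 2 := by
      intro l
      have h1 : b.repr w l = (yc z l - yc z' l) -
          b.repr (ph b i₀ (xc z') * (X z - X z')) l := by
        rw [hw, map_sub, Finsupp.sub_apply, map_sub, Finsupp.sub_apply, hY, hY]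
      have h2 : |yc z l - yc z' l| ≤ (m : ℤ) ^ 2 := by
        rw [abs_le]
        have a1 := hy0 z l
        have a2 := hy0 z' l
        have a3 := hy1 z l
        have a4 := hy1 z' l
        constructor <;> linarith
      have h3 : |b.repr (ph b i₀ (xc z') * (X z - X z')) l| ≤ sc b * ((sa b i₀ * m) * m) := by
        refine repr_mul_le b (ph_le b i₀ (fun i => ?_) (by positivity)) (fun i => ?_)
          (by positivity) l
        · rw [abs_of_nonneg (hx0 z' i)]
          exact (hx1 z' i).le
        · rw [hXX, abs_le]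
          have a1 := hx0 z i
          have a2 := hx0 z' i
          have a3 := hx1 z i
          have a4 := hx1 z' i
          constructor <;> linarith
      rw [h1]
      calc |(yc z l - yc z' l) - b.repr (ph b i₀ (xc z') * (X z - X z')) l| ≤
          |yc z l - yc z' l| + |b.repr (ph b i₀ (xc z') * (X z - X z')) l| := abs_sub _ _
        _ ≤ (m : ℤ) ^ 2 + sc b * ((sa b i₀ * m) * m) := add_le_add h2 h3
        _ = _ := by rw [hCN]; ring
    have hw0 : w = 0 := by
      refine hinj w (fun l => (hwl l).trans (mul_le_mul_of_nonneg_right ?_ (by positivity))) hπw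
      linarith
    have h1 : (yc z i₀ - yc z' i₀) = D * ∑ j, xc z' j * (xc z j - xc z' j) := by
      have h2 : b.repr w i₀ = 0 := by rw [hw0]; simp
      rw [hw, map_sub, Finsupp.sub_apply, map_sub, Finsupp.sub_apply, hY, hY, ph_pair] at h2
      simp only [hXX] at h2
      linarith
    have hcz : 2 * yc z i₀ - D * ∑ i, xc z i ^ 2 = 2 * yc z' i₀ - D * ∑ i, xc z' i ^ 2 :=
      hz.trans hz'.symm
    have h2 : D * ∑ i, (xc z i - xc z' i) ^ 2 = 0 := by
      have h3 : ∑ i, (xc z i - xc z' i) ^ 2 = ∑ i, xc z i ^ 2 - ∑ i, xc z' i ^ 2 -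
          2 * ∑ j, xc z' j * (xc z j - xc z' j) := by
        rw [Finset.mul_sum, ← Finset.sum_sub_distrib, ← Finset.sum_sub_distrib]
        refine Finset.sum_congr rfl fun i _ => ?_
        ring
      rw [h3]
      linear_combination hcz.symm + 2 * h1
    have h3 : ∑ i, (xc z i - xc z' i) ^ 2 = 0 := (mul_eq_zero.1 h2).resolve_left hD0
    have h4 : ∀ i, xc z i = xc z' i := by
      intro i
      have h5 := (Finset.sum_eq_zero_iff_of_nonneg fun i _ => sq_nonneg _).1 h3 i
        (Finset.mem_univ i)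
      have h6 := pow_eq_zero_iff (two_ne_zero) |>.1 h5
      linarith
    have h5 : Y z = Y z' := by
      have h6 : X z = X z' := by
        simp only [X, h4]
      rw [h6, sub_self, mul_zero, sub_zero] at hw
      rw [hw] at hw0
      exact sub_eq_zero.1 hw0
    have h6 : ∀ i, yc z i = yc z' i := by
      intro i
      rw [← hY, ← hY, h5]
    apply Subtype.ext
    change z = z'
    refine Prod.ext (funext fun i => Fin.ext ?_) (funext fun i => Fin.ext ?_)
    · have := h4 i
      simp only [xc] at this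
      exact_mod_cast this
    · have := h6 i
      simp only [yc] at this
      exact_mod_cast this

end gen

section adj

open Polynomial

variable {R : Type*} [CommRing R] [IsDomain R] {d : ℕ} (b : Basis (Fin d) ℤ R)

include b in
/-- Adjoining a root of a monic integer polynomial. -/
theorem adj_lower99 (hd : 0 < d) {f : ℤ[X]} (hf : f.Monic) (hf0 : 0 < f.natDegree) :
    ∃ C : ℕ, 0 < C ∧ ∀ (p : ℕ) [Fact p.Prime] (_ : R →+* ZMod p) (F : Type*) [Field F] [Finite F]
      [Algebra (ZMod p) F] (γ : F), aeval γ f = 0 →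
      (∀ P : (ZMod p)[X], P.degree < (f.natDegree : WithBot ℕ) → aeval γ P = 0 → P = 0) →
      ∀ m : ℕ, 1 ≤ m → C * m ^ (2 * d) < p →
      ∃ n : ℕ, m ^ (3 * (d * f.natDegree)) ≤ C * m ^ 2 * n ∧
        2 ^ n ≤ iNum (ℙ F (Fin 3 → F)) (ℙ F (Fin 3 → F)) := by
  classical
  set g : R[X] := f.map (Int.castRingHom R) with hg
  have hgm : g.Monic := hf.map _
  have hgd : g.natDegree = f.natDegree := by
    rw [hg]
    exact hf.natDegree_map _
  set h := f.natDegree with hh
  have hg1 : g ≠ 1 := by
    intro h1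
    rw [h1, natDegree_one] at hgd
    omega
  have hdegg : g.degree = (h : WithBot ℕ) := by
    rw [degree_eq_natDegree hgm.ne_zero, hgd]
  let pb : Basis (Fin h) R (AdjoinRoot g) :=
    (AdjoinRoot.powerBasisAux' hgm).reindex (finCongr hgd)
  have hpb : ∀ z (i : Fin h), pb.repr z i = (AdjoinRoot.modByMonicHom hgm z).coeff i := by
    intro z i
    simp only [pb, Basis.repr_reindex, Finsupp.mapDomain_equiv_apply]
    rw [AdjoinRoot.powerBasisAux'_repr_apply_to_fun]
    simp
  let B : Basis (Fin (d * h)) ℤ (AdjoinRoot g) := (b.smulTower pb).reindex finProdFinEquiv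
  have hB : ∀ z (i : Fin d) (j : Fin h), B.repr z (finProdFinEquiv (i, j)) =
      b.repr ((AdjoinRoot.modByMonicHom hgm z).coeff j) i := by
    intro z i j
    simp only [B, Basis.repr_reindex, Finsupp.mapDomain_equiv_apply, Equiv.symm_apply_apply]
    rw [Basis.smulTower_repr, hpb]
  let i₀ : Fin (d * h) := finProdFinEquiv (⟨0, hd⟩, ⟨h - 1, by omega⟩)
  have hmod : ∀ z : AdjoinRoot g, (AdjoinRoot.modByMonicHom hgm z).degree < (h : WithBot ℕ) := by
    intro z
    induction z using AdjoinRoot.induction_on with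
    | ih P =>
      rw [AdjoinRoot.modByMonicHom_mk, ← hdegg]
      exact degree_modByMonic_lt P hgm
  have hmk : ∀ z : AdjoinRoot g, AdjoinRoot.mk g (AdjoinRoot.modByMonicHom hgm z) = z :=
    AdjoinRoot.mk_leftInverse hgm
  have hdet : (gm B i₀).det ≠ 0 := by
    apply det_of_nd99
    intro z hz
    by_contra hz0
    set P := AdjoinRoot.modByMonicHom hgm z with hP
    have hP0 : P ≠ 0 := by
      intro h0
      apply hz0
      rw [← hmk z, ← hP, h0, map_zero]
    have hPdeg : P.natDegree < h := by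
      have h1 := hmod z
      rw [← hP, degree_eq_natDegree hP0] at h1
      exact_mod_cast h1
    apply leadingCoeff_ne_zero.2 hP0
    apply nd_of_det99 b ⟨0, hd⟩ (gm_det_ne b _)
    intro r
    have h1 := hz (AdjoinRoot.mk g (X ^ (h - 1 - P.natDegree) * C r))
    simp only [i₀] at h1
    rw [hB] at h1
    have h2 : AdjoinRoot.modByMonicHom hgm (z * AdjoinRoot.mk g (X ^ (h - 1 - P.natDegree) * C r)) =
        P * (X ^ (h - 1 - P.natDegree) * C r) := by
      rw [← hmk z, ← map_mul, AdjoinRoot.modByMonicHom_mk, ← hP]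
      rw [modByMonic_eq_self_iff hgm, hdegg]
      refine lt_of_le_of_lt degree_le_natDegree ?_
      have h3 : (P * (X ^ (h - 1 - P.natDegree) * C r)).natDegree ≤ h - 1 := by
        refine natDegree_mul_le.trans ?_
        have h4 : (X ^ (h - 1 - P.natDegree) * C r : R[X]).natDegree ≤ h - 1 - P.natDegree := by
          refine natDegree_mul_le.trans ?_
          rw [natDegree_C, add_zero]
          exact natDegree_X_pow_le _
        omega
      have h5 : (P * (X ^ (h - 1 - P.natDegree) * C r)).natDegree < h := by omega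
      exact_mod_cast h5
    rw [h2] at h1
    have h3 : (P * (X ^ (h - 1 - P.natDegree) * C r)).coeff (h - 1) = P.leadingCoeff * r := by
      rw [← mul_assoc, coeff_mul_C]
      have h4 : h - 1 = P.natDegree + (h - 1 - P.natDegree) := by omega
      conv_lhs => rw [h4]
      rw [show P.natDegree + (h - 1 - P.natDegree) - P.natDegree = h - 1 - P.natDegree by omega,
        coeff_mul_X_pow]
      rfl
    have h6 : ((⟨h - 1, by omega⟩ : Fin h) : ℕ) = h - 1 := rfl
    rw [h6, h3] at h1
    exact h1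
  obtain ⟨C₀, hC₀, hC⟩ := gen_lower99 B i₀ hdet
  have hsc := sc_nonneg b
  set CN : ℤ := (d.factorial : ℤ) * (sc b * C₀) ^ d with hCN
  have hCN0 : 0 ≤ CN := by positivity
  refine ⟨CN.toNat + C₀, by omega, ?_⟩
  intro p _ π F _ _ _ γ hγ hinj m hm hp
  have hp' : (CN + C₀) * (m : ℤ) ^ (2 * d) < p := by
    have h1 : ((CN.toNat + C₀ : ℕ) : ℤ) = CN + C₀ := by
      push_cast
      rw [Int.toNat_of_nonneg hCN0]
    rw [← h1]
    exact_mod_cast hp
  let ρ : AdjoinRoot g →+* F := AdjoinRoot.lift ((algebraMap (ZMod p) F).comp π) γ (by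
    rw [hg, eval₂_map]
    have h1 : (((algebraMap (ZMod p) F).comp π).comp (Int.castRingHom R)) = algebraMap ℤ F :=
      RingHom.ext_int _ _
    rw [h1]
    exact hγ)
  have hρ : ∀ z, ρ z = aeval γ ((AdjoinRoot.modByMonicHom hgm z).map π) := by
    intro z
    conv_lhs => rw [← hmk z]
    simp only [ρ]
    rw [AdjoinRoot.lift_mk, aeval_def, eval₂_map]
  obtain ⟨n, hn1, hn2⟩ := hC F ρ m hm (by
    intro z hz hz0
    rw [hρ] at hz0
    have h1 : (AdjoinRoot.modByMonicHom hgm z).map π = 0 := by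
      apply hinj _ _ hz0
      exact lt_of_le_of_lt degree_map_le (hmod z)
    have h2 : ∀ j : Fin h, (AdjoinRoot.modByMonicHom hgm z).coeff j = 0 := by
      intro j
      refine eq_zero_of_small b π (Z := (C₀ : ℤ) * (m : ℤ) ^ 2) (fun i => ?_) (by positivity) ?_ ?_
      · rw [← hB]
        exact hz _
      · have h3 : (d.factorial : ℤ) * (sc b * ((C₀ : ℤ) * (m : ℤ) ^ 2)) ^ d =
            CN * (m : ℤ) ^ (2 * d) := by
          rw [hCN, pow_mul, ← mul_assoc (sc b), mul_pow (sc b * _)]
          ring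
        rw [h3]
        refine lt_of_le_of_lt (mul_le_mul_of_nonneg_right ?_ (by positivity)) hp'
        have : (0 : ℤ) ≤ C₀ := Int.natCast_nonneg _
        linarith
      · rw [← coeff_map, h1, coeff_zero]
    rw [← hmk z]
    have h3 : AdjoinRoot.modByMonicHom hgm z = 0 := by
      ext j
      rw [coeff_zero]
      by_cases hj : j < h
      · exact h2 ⟨j, hj⟩
      · apply coeff_eq_zero_of_degree_lt
        refine lt_of_lt_of_le (hmod z) ?_
        exact_mod_cast not_lt.1 hj
    rw [h3, map_zero])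
  refine ⟨n, hn1.trans (Nat.mul_le_mul_right _ (Nat.mul_le_mul_right _ (by omega))), hn2⟩

end adj

end Pool.Agent.Helper99.DS
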