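import Pool.Agent.Helper99.DS.Ring
import Pool.Agent.Helper99.DS.Gen

/-!
# Desarguesian planes: asymptotic lower bounds
-/

set_option autoImplicit false

namespace Pool.Agent.Helper99.DS

open Finset Module Pool.Agent.Helper1.DS

open scoped LinearAlgebra.Projectivization

section aux

open Polynomial

/-- A statement for all rings of rank `d` which map to `ZMod p` gives it for all primes `p`. -/
theorem list_aux99 {d : ℕ} (hd : d.Prime) (Pr : ℕ → ℕ → Prop)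
    (hmono : ∀ C C' p, C ≤ C' → Pr C p → Pr C' p)
    (hring : ∀ (R : Type) [CommRing R] [IsDomain R] (_ : Basis (Fin d) ℤ R),
      ∃ C : ℕ, 0 < C ∧ ∀ (p : ℕ) [Fact p.Prime], (R →+* ZMod p) → Pr C p) :
    ∃ C : ℕ, 0 < C ∧ ∀ (p : ℕ) [Fact p.Prime], 3 < p → Pr C p := by
  have key : ∀ a : ℤ, ∃ C : ℕ, 0 < C ∧ (a ∈ lst d →
      ∀ (p : ℕ) [Fact p.Prime] (g : ZMod p), g ^ d = (a : ZMod p) → Pr C p) := by
    intro a
    by_cases ha : a ∈ lst d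
    · have hirr := irr_lst hd.pos ha
      have hm : (X ^ d - C a : ℤ[X]).Monic := monic_X_pow_sub_C a hd.pos.ne'
      have hdeg : (X ^ d - C a : ℤ[X]).natDegree = d := natDegree_X_pow_sub_C
      have : IsDomain (AdjoinRoot (X ^ d - C a : ℤ[X])) :=
        AdjoinRoot.isDomain_of_prime hirr.prime
      let pb := AdjoinRoot.powerBasis' hm
      have hdim : pb.dim = d := (AdjoinRoot.powerBasis'_dim hm).trans hdeg
      obtain ⟨C₀, hC₀, hC⟩ := hring _ (pb.basis.reindex (finCongr hdim))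
      refine ⟨C₀, hC₀, fun _ p _ g hg => ?_⟩
      refine hC p (AdjoinRoot.lift (Int.castRingHom (ZMod p)) g ?_)
      rw [eval₂_sub, eval₂_X_pow, eval₂_C, hg]
      simp
    · exact ⟨1, one_pos, fun h => absurd h ha⟩
  choose Cf hCf hCf2 using key
  refine ⟨∑ a ∈ lst d, Cf a, ?_, ?_⟩
  · refine Finset.sum_pos (fun a _ => hCf a) ⟨2, Finset.mem_insert_self _ _⟩
  · intro p _ hp3
    obtain ⟨a, ha, g, hg⟩ := exists_root hd hp3 (p := p)
    have hle : Cf a ≤ ∑ a ∈ lst d, Cf a :=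
      Finset.single_le_sum (f := Cf) (fun _ _ => Nat.zero_le _) ha
    exact hmono _ _ _ hle (hCf2 a ha p g hg)

end aux

/-- The choice of the side of the boxes. -/
theorem ana99 {d M C : ℕ} (hd : 0 < d) (hM : 2 ≤ M) (hC : 0 < C) {δ : ℝ} (hδ : 0 < δ) :
    ∃ p₀ : ℕ, ∀ (p : ℕ) (L : ℝ), p₀ ≤ p →
      (∀ m : ℕ, 1 ≤ m → C * m ^ (2 * d) < p → ∃ n : ℕ, m ^ M ≤ C * m ^ 2 * n ∧ (n : ℝ) ≤ L) →
      (p : ℝ) ^ ((M : ℝ) / (2 * d) - 1 / d - δ) ≤ L := by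
  have hd0 : (0 : ℝ) < d := by exact_mod_cast hd
  have hC0' : (0 : ℝ) < C := by exact_mod_cast hC
  set e : ℝ := (M : ℝ) / (2 * d) - 1 / d with he
  set c : ℝ := (1 / (2 * C) : ℝ) ^ e / (2 ^ (M - 2) * C) with hc
  have hcpos : 0 < c := by positivity
  have hev : ∀ᶠ p : ℕ in Filter.atTop, 0 < p ∧ 1 ≤ ((p : ℝ) / (2 * C)) ^ (1 / (2 * d) : ℝ) ∧
      1 ≤ c * (p : ℝ) ^ δ := by
    refine (Filter.eventually_gt_atTop 0).and (Filter.Eventually.and ?_ ?_)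
    · filter_upwards [Filter.eventually_ge_atTop (2 * C)] with p hp
      have h1 : (1 : ℝ) ≤ (p : ℝ) / (2 * C) := by
        rw [le_div_iff₀ (by positivity), one_mul]
        exact_mod_cast hp
      exact Real.one_le_rpow h1 (by positivity)
    · have h1 : Filter.Tendsto (fun p : ℕ => (p : ℝ) ^ δ) Filter.atTop Filter.atTop :=
        (tendsto_rpow_atTop hδ).comp tendsto_natCast_atTop_atTop
      filter_upwards [h1.eventually_ge_atTop (1 / c)] with p hp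
      rw [div_le_iff₀ hcpos] at hp
      linarith
  obtain ⟨p₀, hp₀⟩ := Filter.eventually_atTop.1 hev
  refine ⟨p₀, fun p L hp hyp => ?_⟩
  obtain ⟨hp3, hx1, hlast⟩ := hp₀ p hp
  have hppos : (0 : ℝ) < p := by exact_mod_cast hp3
  set x : ℝ := ((p : ℝ) / (2 * C)) ^ (1 / (2 * d) : ℝ) with hx
  have hm1 : 1 ≤ ⌊x⌋₊ := Nat.le_floor (by simpa using hx1)
  have hmx : ((⌊x⌋₊ : ℕ) : ℝ) ≤ x := Nat.floor_le (by linarith)
  have hmx2 : x / 2 ≤ ((⌊x⌋₊ : ℕ) : ℝ) := by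
    have h1 := Nat.lt_floor_add_one x
    have h2 : (1 : ℝ) ≤ ((⌊x⌋₊ : ℕ) : ℝ) := by exact_mod_cast hm1
    linarith
  have hx2d : x ^ (2 * d) = (p : ℝ) / (2 * C) := by
    rw [hx, ← Real.rpow_natCast, ← Real.rpow_mul (by positivity)]
    push_cast
    rw [one_div, inv_mul_cancel₀ (by positivity), Real.rpow_one]
  have hmp : C * ⌊x⌋₊ ^ (2 * d) < p := by
    have h1 : (C : ℝ) * ((⌊x⌋₊ : ℕ) : ℝ) ^ (2 * d) < p := by
      calc (C : ℝ) * ((⌊x⌋₊ : ℕ) : ℝ) ^ (2 * d) ≤ C * x ^ (2 * d) := by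
            gcongr
        _ = p / 2 := by
            rw [hx2d]; field_simp
        _ < p := by linarith
    exact_mod_cast h1
  obtain ⟨n, hn1, hn2⟩ := hyp _ hm1 hmp
  refine le_trans ?_ hn2
  have h3d : M = (M - 2) + 2 := by omega
  have hn3 : ((⌊x⌋₊ : ℕ) : ℝ) ^ (M - 2) ≤ C * n := by
    have h1 : ((⌊x⌋₊ : ℕ) : ℝ) ^ M ≤ C * ((⌊x⌋₊ : ℕ) : ℝ) ^ 2 * n := by exact_mod_cast hn1
    rw [h3d, pow_add] at h1
    have h2 : (0 : ℝ) < ((⌊x⌋₊ : ℕ) : ℝ) ^ 2 := by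
      have : (1 : ℝ) ≤ ((⌊x⌋₊ : ℕ) : ℝ) := by exact_mod_cast hm1
      positivity
    have h4 : ((⌊x⌋₊ : ℕ) : ℝ) ^ (M - 2) * ((⌊x⌋₊ : ℕ) : ℝ) ^ 2 ≤
        (C * n) * ((⌊x⌋₊ : ℕ) : ℝ) ^ 2 := by
      calc _ ≤ C * ((⌊x⌋₊ : ℕ) : ℝ) ^ 2 * n := h1
        _ = _ := by ring
    exact le_of_mul_le_mul_right h4 h2
  have hxp : x ^ (M - 2) = ((p : ℝ) / (2 * C)) ^ e := by
    rw [hx, ← Real.rpow_natCast, ← Real.rpow_mul (by positivity)]
    congr 1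
    have : ((M - 2 : ℕ) : ℝ) = M - 2 := by
      push_cast [Nat.cast_sub hM]
      ring
    rw [this, he]
    field_simp
  have hn4 : c * (p : ℝ) ^ e ≤ n := by
    have h1 : (x / 2) ^ (M - 2) ≤ C * n := (pow_le_pow_left₀ (by linarith) hmx2 _).trans hn3
    rw [div_pow, hxp, div_eq_mul_one_div (p : ℝ), Real.mul_rpow hppos.le (by positivity)] at h1
    rw [hc]
    rw [div_mul_eq_mul_div, div_le_iff₀ (by positivity)]
    rw [div_le_iff₀ (by positivity)] at h1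
    calc (1 / (2 * C) : ℝ) ^ e * (p : ℝ) ^ e = (p : ℝ) ^ e * (1 / (2 * C) : ℝ) ^ e := by ring
      _ ≤ C * n * 2 ^ (M - 2) := h1
      _ = _ := by ring
  refine le_trans ?_ hn4
  have h5 : (p : ℝ) ^ e = (p : ℝ) ^ (e - δ) * (p : ℝ) ^ δ := by
    rw [← Real.rpow_add hppos]
    congr 1
    ring
  rw [h5]
  have h6 : (0 : ℝ) < (p : ℝ) ^ (e - δ) := by positivity
  calc (p : ℝ) ^ (e - δ) = (p : ℝ) ^ (e - δ) * 1 := by ring
    _ ≤ (p : ℝ) ^ (e - δ) * (c * (p : ℝ) ^ δ) := mul_le_mul_of_nonneg_left hlast h6.le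
    _ = _ := by ring

theorem le_logb99 {n N : ℕ} (h : 2 ^ n ≤ N) : (n : ℝ) ≤ Real.logb 2 N := by
  have h1 : (0 : ℝ) < (N : ℝ) := by
    have : 0 < 2 ^ n := by positivity
    exact_mod_cast lt_of_lt_of_le this h
  rw [Real.le_logb_iff_rpow_le (by norm_num) h1, Real.rpow_natCast]
  exact_mod_cast h

theorem exists_d99 {δ : ℝ} (hδ : 0 < δ) : ∃ d : ℕ, d.Prime ∧ 1 / (d : ℝ) < δ := by
  obtain ⟨d, hd1, hd⟩ := Nat.exists_infinite_primes (⌈2 / δ⌉₊ + 1)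
  refine ⟨d, hd, ?_⟩
  have hd0 : (0 : ℝ) < d := by exact_mod_cast hd.pos
  have h1 : 2 / δ < d := by
    have h2 : 2 / δ ≤ (⌈2 / δ⌉₊ : ℝ) := Nat.le_ceil _
    have h3 : ((⌈2 / δ⌉₊ : ℕ) : ℝ) + 1 ≤ d := by exact_mod_cast hd1
    linarith
  rw [div_lt_iff₀ hδ] at h1
  rw [div_lt_iff₀ hd0]
  linarith

universe u

/-- Boxes of polynomials of degree `< k` in a generator. -/
theorem half_lower99 {k h : ℕ} (hk : 0 < k) (hkh : 2 * k ≤ h + 1) {ε : ℝ} (hε : 0 < ε) :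
    ∃ p₀ : ℕ, ∀ (p : ℕ) [Fact p.Prime] (F : Type u) [Field F] [Finite F] [Algebra (ZMod p) F],
      finrank (ZMod p) F = h → p₀ ≤ p →
      (p : ℝ) ^ ((h : ℝ) + (k : ℝ) / 2 - ε) ≤ Real.logb 2 (iNum (ℙ F (Fin 3 → F)) (ℙ F (Fin 3 → F))) := by
  obtain ⟨d, hd, hdε⟩ := exists_d99 (half_pos hε)
  have hd0 : (0 : ℝ) < d := by exact_mod_cast hd.pos
  obtain ⟨C, hC0, hC⟩ := list_aux99 hd (fun C p => ∀ [Fact p.Prime] (F : Type u) [Field F]
    [Finite F] [Algebra (ZMod p) F], finrank (ZMod p) F = h → ∀ m : ℕ, 1 ≤ m →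
      C * m ^ (2 * d) < p → ∃ n : ℕ, m ^ (d * k + 2 * d * h) ≤ C * m ^ 2 * n ∧
        2 ^ n ≤ iNum (ℙ F (Fin 3 → F)) (ℙ F (Fin 3 → F)))
    (fun C C' p hCC hP _ F _ _ _ hF m hm hmp => by
      obtain ⟨n, hn1, hn2⟩ := hP F hF m hm (lt_of_le_of_lt (Nat.mul_le_mul_right _ hCC) hmp)
      exact ⟨n, hn1.trans (Nat.mul_le_mul_right _ (Nat.mul_le_mul_right _ hCC)), hn2⟩)
    (fun R _ _ b => by
      obtain ⟨C, hC0, hC⟩ := ring_lower99.{0, u} b hd.pos hk hkh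
      exact ⟨C, hC0, fun p _ π _ F _ _ _ hF m hm hmp => hC p π F hF m hm hmp⟩)
  have hM : 2 ≤ d * k + 2 * d * h := by
    have := hd.two_le
    have h1 : 1 ≤ h := by omega
    have h2 : d * 1 ≤ d * h := Nat.mul_le_mul_left d h1
    have h3 : 2 * d * h = 2 * (d * h) := by ring
    rw [h3]
    omega
  obtain ⟨p₀, hp₀⟩ := ana99 hd.pos hM hC0 (half_pos hε)
  refine ⟨max p₀ 4, fun p _ F _ _ _ hF hp => ?_⟩
  have hp4 : 3 < p := lt_of_lt_of_le (by norm_num) ((le_max_right _ _).trans hp)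
  have h1 := hp₀ p (Real.logb 2 (iNum (ℙ F (Fin 3 → F)) (ℙ F (Fin 3 → F))))
    ((le_max_left _ _).trans hp) (fun m hm hmp => by
      obtain ⟨n, hn1, hn2⟩ := hC p hp4 F hF m hm hmp
      exact ⟨n, hn1, le_logb99 hn2⟩)
  refine le_trans ?_ h1
  refine Real.rpow_le_rpow_of_exponent_le ?_ ?_
  · have : 1 ≤ p := by omega
    exact_mod_cast this
  · have h2 : ((d * k + 2 * d * h : ℕ) : ℝ) / (2 * d) = h + k / 2 := by
      push_cast
      field_simp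
      ring
    rw [h2]
    linarith

/-- Primes for which an integer polynomial is irreducible. -/
theorem full_lower99 {f : Polynomial ℤ} (hf : f.Monic) (hf0 : 0 < f.natDegree) {ε : ℝ}
    (hε : 0 < ε) :
    ∃ p₀ : ℕ, ∀ (p : ℕ) [Fact p.Prime] (F : Type u) [Field F] [Finite F] [Algebra (ZMod p) F]
      (γ : F), Polynomial.aeval γ f = 0 →
      (∀ P : Polynomial (ZMod p), P.degree < (f.natDegree : WithBot ℕ) →
        Polynomial.aeval γ P = 0 → P = 0) → p₀ ≤ p →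
      (p : ℝ) ^ (3 / 2 * (f.natDegree : ℝ) - ε) ≤
        Real.logb 2 (iNum (ℙ F (Fin 3 → F)) (ℙ F (Fin 3 → F))) := by
  obtain ⟨d, hd, hdε⟩ := exists_d99 (half_pos hε)
  have hd0 : (0 : ℝ) < d := by exact_mod_cast hd.pos
  obtain ⟨C, hC0, hC⟩ := list_aux99 hd (fun C p => ∀ [Fact p.Prime] (F : Type u) [Field F]
    [Finite F] [Algebra (ZMod p) F] (γ : F), Polynomial.aeval γ f = 0 →
      (∀ P : Polynomial (ZMod p), P.degree < (f.natDegree : WithBot ℕ) →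
        Polynomial.aeval γ P = 0 → P = 0) → ∀ m : ℕ, 1 ≤ m →
      C * m ^ (2 * d) < p → ∃ n : ℕ, m ^ (3 * (d * f.natDegree)) ≤ C * m ^ 2 * n ∧
        2 ^ n ≤ iNum (ℙ F (Fin 3 → F)) (ℙ F (Fin 3 → F)))
    (fun C C' p hCC hP _ F _ _ _ γ hγ1 hγ2 m hm hmp => by
      obtain ⟨n, hn1, hn2⟩ := hP F γ hγ1 hγ2 m hm
        (lt_of_le_of_lt (Nat.mul_le_mul_right _ hCC) hmp)
      exact ⟨n, hn1.trans (Nat.mul_le_mul_right _ (Nat.mul_le_mul_right _ hCC)), hn2⟩)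
    (fun R _ _ b => by
      obtain ⟨C, hC0, hC⟩ := adj_lower99.{0, u} b hd.pos hf hf0
      exact ⟨C, hC0, fun p _ π _ F _ _ _ γ hγ1 hγ2 m hm hmp => hC p π F γ hγ1 hγ2 m hm hmp⟩)
  have hM : 2 ≤ 3 * (d * f.natDegree) := by
    have := hd.two_le
    have h2 : d * 1 ≤ d * f.natDegree := Nat.mul_le_mul_left d hf0
    omega
  obtain ⟨p₀, hp₀⟩ := ana99 hd.pos hM hC0 (half_pos hε)
  refine ⟨max p₀ 4, fun p _ F _ _ _ γ hγ1 hγ2 hp => ?_⟩
  have hp4 : 3 < p := lt_of_lt_of_le (by norm_num) ((le_max_right _ _).trans hp)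
  have h1 := hp₀ p (Real.logb 2 (iNum (ℙ F (Fin 3 → F)) (ℙ F (Fin 3 → F))))
    ((le_max_left _ _).trans hp) (fun m hm hmp => by
      obtain ⟨n, hn1, hn2⟩ := hC p hp4 F γ hγ1 hγ2 m hm hmp
      exact ⟨n, hn1, le_logb99 hn2⟩)
  refine le_trans ?_ h1
  refine Real.rpow_le_rpow_of_exponent_le ?_ ?_
  · have : 1 ≤ p := by omega
    exact_mod_cast this
  · have h2 : ((3 * (d * f.natDegree) : ℕ) : ℝ) / (2 * d) = 3 / 2 * f.natDegree := by
      push_cast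
      field_simp
    rw [h2]
    linarith

end Pool.Agent.Helper99.DS
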