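import Pool.Agent.Helper99.DS.Fin

/-!
# Desarguesian planes: statements in terms of the order
-/

set_option autoImplicit false

namespace Pool.Agent.Helper99.DS

open Finset Module Pool.Agent.Helper1.DS

open scoped LinearAlgebra.Projectivization

universe u

/-- A field with `p ^ h` elements is an extension of degree `h` of `ZMod p`. -/
theorem alg99 {p h : ℕ} [Fact p.Prime] (F : Type u) [Field F] [Finite F] (hh : 0 < h)
    (hF : Nat.card F = p ^ h) : ∃ _ : Algebra (ZMod p) F, finrank (ZMod p) F = h := by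
  have : Fintype F := Fintype.ofFinite F
  have hF' : Fintype.card F = p ^ h := by rw [← Nat.card_eq_fintype_card, hF]
  have hchar : CharP F p := charP_of_card_eq_prime_pow hF'
  refine ⟨ZMod.algebra F p, ?_⟩
  let _ := ZMod.algebra F p
  have hp2 : 2 ≤ p := (Fact.out : p.Prime).two_le
  have hfd : FiniteDimensional (ZMod p) F := Module.Finite.of_finite
  have h1 := Module.natCard_eq_pow_finrank (K := ZMod p) (V := F)
  rw [hF, Nat.card_zmod] at h1
  exact (Nat.pow_right_injective hp2 h1).symm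

theorem rpow_le99 {p h : ℕ} (hp : 1 ≤ p) {a b : ℝ} (hab : (h : ℝ) * a ≤ b) {L : ℝ}
    (h1 : (p : ℝ) ^ b ≤ L) : ((p ^ h : ℕ) : ℝ) ^ a ≤ L := by
  refine le_trans ?_ h1
  rw [Nat.cast_pow, ← Real.rpow_natCast, ← Real.rpow_mul (Nat.cast_nonneg p)]
  exact Real.rpow_le_rpow_of_exponent_le (by exact_mod_cast hp) hab

theorem irr_lower99 {f : Polynomial ℤ} (hf : f.Monic) (hf0 : 0 < f.natDegree) {ε : ℝ}
    (hε : 0 < ε) :
    ∃ p₀ : ℕ, ∀ p : ℕ, p.Prime → p₀ ≤ p →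
      Irreducible (f.map (Int.castRingHom (ZMod p))) →
      ∀ (F : Type u) [Field F] [Finite F], Nat.card F = p ^ f.natDegree →
        (Nat.card F : ℝ) ^ (3 / 2 - ε) ≤
          Real.logb 2 (iNum (ℙ F (Fin 3 → F)) (ℙ F (Fin 3 → F))) := by
  obtain ⟨p₀, hp₀⟩ := full_lower99.{u} hf hf0 hε
  refine ⟨p₀, fun p hpp hp hirr F _ _ hF => ?_⟩
  have : Fact p.Prime := ⟨hpp⟩
  obtain ⟨_, hfr⟩ := alg99 F hf0 hF
  set g := f.map (Int.castRingHom (ZMod p)) with hg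
  have hgm : g.Monic := hf.map _
  have hgd : g.natDegree = f.natDegree := hf.natDegree_map _
  have : Fact (Irreducible g) := ⟨hirr⟩
  have hg0 : g ≠ 0 := hgm.ne_zero
  have hfrA : finrank (ZMod p) (AdjoinRoot g) = f.natDegree := by
    rw [(AdjoinRoot.powerBasis hg0).finrank, AdjoinRoot.powerBasis_dim, hgd]
  have hfinA : Finite (AdjoinRoot g) := by
    have : Module.Finite (ZMod p) (AdjoinRoot g) := (AdjoinRoot.powerBasis hg0).finite
    exact Module.finite_of_finite (ZMod p)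
  obtain ⟨φ⟩ := FiniteField.nonempty_algHom_of_finrank_dvd (F := ZMod p) (K := AdjoinRoot g)
    (L := F) (by rw [hfrA, hfr])
  set γ := φ (AdjoinRoot.root g) with hγ
  have hγg : Polynomial.aeval γ g = 0 := by
    rw [hγ, Polynomial.aeval_algHom_apply, AdjoinRoot.aeval_eq, AdjoinRoot.mk_self, map_zero]
  have hγf : Polynomial.aeval γ f = 0 := by
    rw [← hγg, hg, Polynomial.aeval_def, Polynomial.aeval_def, Polynomial.eval₂_map]
    congr 1
    exact RingHom.ext_int _ _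
  have hmin : minpoly (ZMod p) γ = g := (minpoly.eq_of_irreducible_of_monic hirr hγg hgm).symm
  rw [hF]
  refine rpow_le99 hpp.one_lt.le (b := 3 / 2 * (f.natDegree : ℝ) - ε) ?_
    (hp₀ p F γ hγf (fun P hP h0 => ?_) hp)
  · have h1 : (1 : ℝ) ≤ (f.natDegree : ℝ) := by exact_mod_cast hf0
    nlinarith
  · by_contra hne
    have h1 := minpoly.degree_le_of_ne_zero (ZMod p) γ hne h0
    rw [hmin, Polynomial.degree_eq_natDegree hg0, hgd] at h1
    exact absurd h1 (not_le.2 hP)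

theorem odd_lower99 {h : ℕ} (hodd : Odd h) {ε : ℝ} (hε : 0 < ε) :
    ∃ p₀ : ℕ, ∀ p : ℕ, p.Prime → p₀ ≤ p →
      ∀ (F : Type u) [Field F] [Finite F], Nat.card F = p ^ h →
        (Nat.card F : ℝ) ^ (5 / 4 + 1 / (4 * h) - ε : ℝ) ≤
          Real.logb 2 (iNum (ℙ F (Fin 3 → F)) (ℙ F (Fin 3 → F))) := by
  obtain ⟨t, ht⟩ := hodd
  have hh : 0 < h := by omega
  obtain ⟨p₀, hp₀⟩ := half_lower99.{u} (k := t + 1) (h := h) (by omega) (by omega) hε
  refine ⟨p₀, fun p hpp hp F _ _ hF => ?_⟩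
  have : Fact p.Prime := ⟨hpp⟩
  obtain ⟨_, hfr⟩ := alg99 F hh hF
  rw [hF]
  refine rpow_le99 hpp.one_lt.le ?_ (hp₀ p F hfr hp)
  have h1 : (1 : ℝ) ≤ (h : ℝ) := by exact_mod_cast hh
  have h2 : (h : ℝ) = 2 * t + 1 := by exact_mod_cast ht
  have h3 : (h : ℝ) * (5 / 4 + 1 / (4 * h) - ε) = 5 / 4 * h + 1 / 4 - ε * h := by
    field_simp
  rw [h3]
  push_cast
  nlinarith

theorem unif_lower99 {ε : ℝ} (hε : 0 < ε) :
    ∃ q₀ : ℕ, ∀ (F : Type u) [Field F] [Finite F], q₀ ≤ Nat.card F →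
        (Nat.card F : ℝ) ^ (5 / 4 - ε) ≤
          Real.logb 2 (iNum (ℙ F (Fin 3 → F)) (ℙ F (Fin 3 → F))) := by
  have key : ∀ h : ℕ, ∃ p₀ : ℕ, 0 < h → ∀ p : ℕ, p.Prime → p₀ ≤ p →
      ∀ (F : Type u) [Field F] [Finite F], Nat.card F = p ^ h →
        (Nat.card F : ℝ) ^ (5 / 4 - ε) ≤
          Real.logb 2 (iNum (ℙ F (Fin 3 → F)) (ℙ F (Fin 3 → F))) := by
    intro h
    by_cases hh : 0 < h
    · obtain ⟨p₀, hp₀⟩ := half_lower99.{u} (k := (h + 1) / 2) (h := h) (by omega) (by omega) hε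
      refine ⟨p₀, fun _ p hpp hp F _ _ hF => ?_⟩
      have : Fact p.Prime := ⟨hpp⟩
      obtain ⟨_, hfr⟩ := alg99 F hh hF
      rw [hF]
      refine rpow_le99 hpp.one_lt.le ?_ (hp₀ p F hfr hp)
      have h1 : (1 : ℝ) ≤ (h : ℝ) := by exact_mod_cast hh
      have h2 : (h : ℝ) ≤ 2 * (((h + 1) / 2 : ℕ) : ℝ) := by
        have : h ≤ 2 * ((h + 1) / 2) := by omega
        exact_mod_cast this
      nlinarith
    · exact ⟨0, fun h => absurd h hh⟩
  choose p₀ hp₀ using key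
  set h₀ : ℕ := ⌈1 / ε⌉₊ with hh₀
  refine ⟨∑ h ∈ range h₀, p₀ h ^ h, fun F _ _ hq => ?_⟩
  have : Fintype F := Fintype.ofFinite F
  obtain ⟨p, hchar⟩ := CharP.exists F
  obtain ⟨n, hpp, hn⟩ := FiniteField.card F p
  have hF : Nat.card F = p ^ (n : ℕ) := by rw [Nat.card_eq_fintype_card, hn]
  by_cases hlt : (n : ℕ) < h₀
  · refine hp₀ n n.pos p hpp ?_ F hF
    by_contra hcon
    rw [not_le] at hcon
    have h1 : p ^ (n : ℕ) < p₀ n ^ (n : ℕ) := Nat.pow_lt_pow_left hcon n.pos.ne'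
    have h2 : p₀ n ^ (n : ℕ) ≤ ∑ h ∈ range h₀, p₀ h ^ h :=
      Finset.single_le_sum (f := fun h => p₀ h ^ h) (fun _ _ => Nat.zero_le _)
        (Finset.mem_range.2 hlt)
    omega
  · have : Fact p.Prime := ⟨hpp⟩
    obtain ⟨_, hfr⟩ := alg99 F n.pos hF
    have h1 := ext_lower99 (k := ZMod p) (F := F) (r := ((n : ℕ) + 1) / 4) (by
      rw [hfr]; omega)
    rw [hfr, Nat.card_zmod] at h1
    have h2 := le_logb99 h1
    rw [hF]
    refine rpow_le99 hpp.one_lt.le (b := (((n : ℕ) + ((n : ℕ) + 1) / 4 : ℕ) : ℝ)) ?_ ?_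
    · have h3 : 1 / ε ≤ (n : ℕ) := by
        have h4 : 1 / ε ≤ (h₀ : ℝ) := Nat.le_ceil _
        have h5 : (h₀ : ℝ) ≤ ((n : ℕ) : ℝ) := by exact_mod_cast not_lt.1 hlt
        linarith
      rw [div_le_iff₀ hε] at h3
      have h4 : (((n : ℕ) : ℝ) - 2) ≤ 4 * ((((n : ℕ) + 1) / 4 : ℕ) : ℝ) := by
        have : (n : ℕ) ≤ 4 * (((n : ℕ) + 1) / 4) + 2 := by omega
        have h5 : (((n : ℕ) : ℝ)) ≤ 4 * ((((n : ℕ) + 1) / 4 : ℕ) : ℝ) + 2 := by exact_mod_cast this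
        linarith
      rw [Nat.cast_add]
      nlinarith
    · rw [Real.rpow_natCast]
      exact_mod_cast h2

end Pool.Agent.Helper99.DS
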