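import Pool.Agent.Helper1.DS.PrimeOrd
import Pool.Agent.Helper99.DS.Ext

/-!
# Tangent systems in the plane over a finite field from rings of algebraic integers
-/

set_option autoImplicit false

namespace Pool.Agent.Helper99.DS

open Finset Module Pool.Agent.Helper1.DS

open scoped LinearAlgebra.Projectivization

section ring

variable {R : Type*} [CommRing R] [IsDomain R] {d : ℕ} (b : Basis (Fin d) ℤ R)

/-- polynomial with given coefficients -/
noncomputable def pl99 {A : Type*} [Semiring A] (k : ℕ) (f : ℕ → A) : Polynomial A :=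
  ∑ i ∈ range k, Polynomial.monomial i (f i)

theorem pl99_coeff {A : Type*} [Semiring A] (k : ℕ) (f : ℕ → A) (j : ℕ) :
    (pl99 k f).coeff j = if j < k then f j else 0 := by
  unfold pl99
  rw [Polynomial.finsetSum_coeff]
  simp only [Polynomial.coeff_monomial]
  rw [Finset.sum_ite_eq']
  simp

theorem pl99_natDegree {A : Type*} [Semiring A] {k : ℕ} (hk : 0 < k) (f : ℕ → A) :
    (pl99 k f).natDegree < k := by
  have h1 : (pl99 k f).natDegree ≤ k - 1 := by
    rw [Polynomial.natDegree_le_iff_coeff_eq_zero]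
    intro j hj
    rw [pl99_coeff, if_neg (by omega)]
  omega

include b in
theorem ring_lower99 (hd : 0 < d) {k h : ℕ} (hk : 0 < k) (hkh : 2 * k ≤ h + 1) :
    ∃ C : ℕ, 0 < C ∧ ∀ (p : ℕ) [Fact p.Prime] (_ : R →+* ZMod p) (F : Type*) [Field F] [Finite F]
      [Algebra (ZMod p) F], finrank (ZMod p) F = h → ∀ m : ℕ, 1 ≤ m → C * m ^ (2 * d) < p →
      ∃ n : ℕ, m ^ (d * k + 2 * d * h) ≤ C * m ^ 2 * n ∧
        2 ^ n ≤ iNum (ℙ F (Fin 3 → F)) (ℙ F (Fin 3 → F)) := by
  classical
  let i₀ : Fin d := ⟨0, hd⟩
  have hh : 0 < h := by omega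
  set D : ℤ := (gm b i₀).det with hD
  have hD0 : D ≠ 0 := gm_det_ne b i₀
  set CN : ℤ := (d.factorial : ℤ) * (sc b * (1 + h * (sc b * sa b i₀))) ^ d with hCN
  set CB : ℤ := 2 * (2 + |D| * (k * d)) + 1 with hCB
  have hsc := sc_nonneg b
  have hsa := sa_nonneg b i₀
  have hCN0 : 0 ≤ CN := by positivity
  have hCB0 : 0 ≤ CB := by positivity
  refine ⟨(CN + CB).toNat + 1, Nat.succ_pos _, ?_⟩
  intro p _ π F _ _ _ hF m hm hp
  have hp' : (CN + CB + 1) * (m : ℤ) ^ (2 * d) < p := by
    have h1 : (((CN + CB).toNat + 1 : ℕ) : ℤ) = CN + CB + 1 := by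
      push_cast
      rw [Int.toNat_of_nonneg (by positivity)]
    rw [← h1]
    exact_mod_cast hp
  let Z := (Fin k → Fin d → Fin m) × (Fin h → Fin d → Fin (m ^ 2))
  let xc : Z → ℕ → Fin d → ℤ := fun z i l => if hi : i < k then ((z.1 ⟨i, hi⟩ l : ℕ) : ℤ) else 0
  let yc : Z → ℕ → Fin d → ℤ := fun z i l => if hi : i < h then ((z.2 ⟨i, hi⟩ l : ℕ) : ℤ) else 0
  let c : Z → ℤ := fun z => 2 * yc z (k - 1) i₀ - D * ∑ i ∈ range k, ∑ l, xc z i l ^ 2
  set B : ℤ := (2 + |D| * (k * d)) * (m : ℤ) ^ 2 with hB
  have hm0 : (1 : ℤ) ≤ m := by exact_mod_cast hm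
  have hx0 : ∀ z i l, 0 ≤ xc z i l := fun z i l => by
    simp only [xc]
    split_ifs
    · exact Int.natCast_nonneg _
    · exact le_refl _
  have hx1 : ∀ z i l, xc z i l ≤ m := fun z i l => by
    simp only [xc]
    split_ifs with hi
    · have h1 := (z.1 ⟨i, hi⟩ l).2
      exact_mod_cast h1.le
    · linarith
  have hy0 : ∀ z i l, 0 ≤ yc z i l := fun z i l => by
    simp only [yc]
    split_ifs
    · exact Int.natCast_nonneg _
    · exact le_refl _
  have hy1 : ∀ z i l, yc z i l ≤ (m : ℤ) ^ 2 := fun z i l => by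
    simp only [yc]
    split_ifs with hi
    · have h1 := (z.2 ⟨i, hi⟩ l).2
      exact_mod_cast h1.le
    · positivity
  have hcB : ∀ z, |c z| ≤ B := by
    intro z
    have h1 : |∑ i ∈ range k, ∑ l, xc z i l ^ 2| ≤ (k * d) * (m : ℤ) ^ 2 := by
      rw [abs_of_nonneg (Finset.sum_nonneg fun i _ => Finset.sum_nonneg fun l _ => sq_nonneg _)]
      have h2 : ∀ i ∈ range k, ∑ l, xc z i l ^ 2 ≤ d * (m : ℤ) ^ 2 := by
        intro i _
        have : ∀ l ∈ (univ : Finset (Fin d)), xc z i l ^ 2 ≤ (m : ℤ) ^ 2 := by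
          intro l _
          exact pow_le_pow_left₀ (hx0 z i l) (hx1 z i l) 2
        have h4 := Finset.sum_le_card_nsmul _ _ _ this
        rw [Finset.card_univ, Fintype.card_fin, nsmul_eq_mul] at h4
        exact h4
      have h4 := Finset.sum_le_card_nsmul _ _ _ h2
      rw [Finset.card_range, nsmul_eq_mul] at h4
      rw [mul_assoc]
      exact h4
    have h5 : |2 * yc z (k - 1) i₀| ≤ 2 * (m : ℤ) ^ 2 := by
      rw [abs_of_nonneg (by have := hy0 z (k - 1) i₀; positivity)]
      have := hy1 z (k - 1) i₀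
      linarith
    calc |c z| ≤ |2 * yc z (k - 1) i₀| + |D * ∑ i ∈ range k, ∑ l, xc z i l ^ 2| := abs_sub _ _
      _ ≤ 2 * (m : ℤ) ^ 2 + |D| * ((k * d) * (m : ℤ) ^ 2) := by
          rw [abs_mul D]
          exact add_le_add h5 (mul_le_mul_of_nonneg_left h1 (abs_nonneg _))
      _ = B := by rw [hB]; ring
  have hB0 : 0 ≤ B := by positivity
  obtain ⟨u, hu, hmax⟩ := Finset.exists_max_image (Finset.Icc (-B) B)
    (fun u => (univ.filter fun z : Z => c z = u).card) ⟨0, by simp [hB0]⟩
  have hcard : Fintype.card Z = m ^ (d * k + 2 * d * h) := by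
    simp only [Z, Fintype.card_prod, Fintype.card_fun, Fintype.card_fin]
    rw [← pow_mul, ← pow_mul, ← pow_mul, ← pow_add]
    congr 1
    ring
  set n := (univ.filter fun z : Z => c z = u).card with hn
  have hsum : m ^ (d * k + 2 * d * h) ≤ (2 * B + 1).toNat * n := by
    rw [← hcard, ← Finset.card_univ,
      Finset.card_eq_sum_card_fiberwise (f := c) (t := Finset.Icc (-B) B)]
    · refine (Finset.sum_le_card_nsmul _ _ n hmax).trans (le_of_eq ?_)
      rw [Int.card_Icc, smul_eq_mul]
      congr 2
      ring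
    · intro z _
      rw [Finset.mem_coe, Finset.mem_Icc, ← abs_le]
      exact hcB z
  refine ⟨n, ?_, ?_⟩
  · refine hsum.trans (Nat.mul_le_mul_right n ?_)
    rw [Int.toNat_le]
    push_cast
    rw [Int.toNat_of_nonneg (by positivity)]
    have h1 : 1 ≤ (m : ℤ) ^ 2 := one_le_pow₀ hm0
    have h2 : 2 * B + 1 ≤ CB * (m : ℤ) ^ 2 := by
      rw [hB, hCB]
      linarith
    refine h2.trans (mul_le_mul_of_nonneg_right ?_ (by positivity))
    linarith
  · have hcardΩ : Nat.card {z : Z // c z = u} = n := by
      rw [Nat.card_eq_fintype_card, Fintype.card_subtype]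
    rw [← hcardΩ]
    obtain ⟨γ, hγ⟩ := exists_gen99 (ZMod p) F
    rw [hF] at hγ
    let xr : Z → ℕ → R := fun z i => ∑ l, xc z i l • b l
    let yr : Z → ℕ → R := fun z i => ∑ l, yc z i l • b l
    let sr : Z → ℕ → R := fun z i => ph b i₀ (xc z (k - 1 - i))
    have hX : ∀ z i l, b.repr (xr z i) l = xc z i l := fun z i l =>
      congrFun (b.repr_sum_self (xc z i)) l
    have hY : ∀ z i l, b.repr (yr z i) l = yc z i l := fun z i l =>
      congrFun (b.repr_sum_self (yc z i)) l
    let PX : Z → Polynomial R := fun z => pl99 k (xr z)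
    let PS : Z → Polynomial R := fun z => pl99 k (sr z)
    let PY : Z → Polynomial R := fun z => pl99 h (yr z)
    refine poly_lower99 (k := ZMod p) (a := k - 1) (n := h) hγ (by omega)
      (Ω := {z : Z // c z = u}) (fun z => (PX z.1).map π) (fun z => (PY z.1).map π)
      (fun z => (PS z.1).map π) ?_ ?_ ?_ ?_
    · intro z
      have h1 := pl99_natDegree hk (xr z.1)
      have h2 : ((PX z.1).map π).natDegree ≤ (PX z.1).natDegree := Polynomial.natDegree_map_le
      have h3 : (PX z.1).natDegree < k := h1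
      omega
    · intro z
      have h1 := pl99_natDegree hk (sr z.1)
      have h2 : ((PS z.1).map π).natDegree ≤ (PS z.1).natDegree := Polynomial.natDegree_map_le
      have h3 : (PS z.1).natDegree < k := h1
      omega
    · intro z
      exact lt_of_le_of_lt Polynomial.natDegree_map_le (pl99_natDegree hh (yr z.1))
    rintro ⟨z, hz⟩ ⟨z', hz'⟩ hE
    have hE' : (PY z).map π - (PY z').map π = (PS z').map π * ((PX z).map π - (PX z').map π) := hE
    set w : Polynomial R := PY z - PY z' - (PX z - PX z') * PS z' with hw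
    have hπw : w.map π = 0 := by
      rw [hw, Polynomial.map_sub, Polynomial.map_sub, Polynomial.map_mul, Polynomial.map_sub, hE']
      ring
    have hXX : ∀ i l, b.repr ((PX z - PX z').coeff i) l = if i < k then xc z i l - xc z' i l
        else 0 := by
      intro i l
      simp only [PX]
      rw [Polynomial.coeff_sub, pl99_coeff, pl99_coeff]
      split_ifs
      · rw [map_sub, Finsupp.sub_apply, hX, hX]
      · simp
    have hXXle : ∀ i l, |b.repr ((PX z - PX z').coeff i) l| ≤ m := by
      intro i l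
      rw [hXX]
      split_ifs
      · rw [abs_le]
        have a1 := hx0 z i l
        have a2 := hx0 z' i l
        have a3 := hx1 z i l
        have a4 := hx1 z' i l
        constructor <;> linarith
      · rw [abs_zero]
        linarith
    have hSle : ∀ i l, |b.repr ((PS z').coeff i) l| ≤ sa b i₀ * m := by
      intro i l
      simp only [PS]
      rw [pl99_coeff]
      split_ifs
      · refine ph_le b i₀ (fun l => ?_) (by positivity) l
        rw [abs_of_nonneg (hx0 z' _ l)]
        exact hx1 z' _ l
      · rw [map_zero, Finsupp.zero_apply, abs_zero]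
        positivity
    have hwl : ∀ j, j < h → ∀ l, |b.repr (w.coeff j) l| ≤
        (1 + h * (sc b * sa b i₀)) * (m : ℤ) ^ 2 := by
      intro j hj l
      have h1 : b.repr (w.coeff j) l = (yc z j l - yc z' j l) -
          b.repr (((PX z - PX z') * PS z').coeff j) l := by
        rw [hw, Polynomial.coeff_sub, Polynomial.coeff_sub, map_sub, Finsupp.sub_apply, map_sub,
          Finsupp.sub_apply]
        simp only [PY]
        rw [pl99_coeff, pl99_coeff, if_pos hj, if_pos hj, hY, hY]
      have h2 : |yc z j l - yc z' j l| ≤ (m : ℤ) ^ 2 := by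
        rw [abs_le]
        have a1 := hy0 z j l
        have a2 := hy0 z' j l
        have a3 := hy1 z j l
        have a4 := hy1 z' j l
        constructor <;> linarith
      have h3 : |b.repr (((PX z - PX z') * PS z').coeff j) l| ≤
          h * (sc b * (m * (sa b i₀ * m))) := by
        rw [Polynomial.coeff_mul, Finset.Nat.sum_antidiagonal_eq_sum_range_succ_mk, map_sum,
          Finsupp.finsetSum_apply]
        refine (Finset.abs_sum_le_sum_abs _ _).trans ?_
        refine (Finset.sum_le_card_nsmul _ _ (sc b * (m * (sa b i₀ * m))) fun i _ => ?_).trans ?_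
        · exact repr_mul_le b (hXXle i) (hSle (j - i)) (by positivity) l
        · rw [Finset.card_range, nsmul_eq_mul]
          refine mul_le_mul_of_nonneg_right ?_ (by positivity)
          exact_mod_cast hj
      rw [h1]
      calc |(yc z j l - yc z' j l) - b.repr (((PX z - PX z') * PS z').coeff j) l| ≤
          |yc z j l - yc z' j l| + |b.repr (((PX z - PX z') * PS z').coeff j) l| := abs_sub _ _
        _ ≤ (m : ℤ) ^ 2 + h * (sc b * (m * (sa b i₀ * m))) := add_le_add h2 h3
        _ = _ := by ring
    have hw0 : ∀ j, j < h → w.coeff j = 0 := by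
      intro j hj
      refine eq_zero_of_small b π (hwl j hj) (by positivity) ?_ ?_
      · have h1 : (d.factorial : ℤ) * (sc b * ((1 + h * (sc b * sa b i₀)) * (m : ℤ) ^ 2)) ^ d =
            CN * (m : ℤ) ^ (2 * d) := by
          rw [hCN, pow_mul, ← mul_assoc (sc b), mul_pow (sc b * _)]
          ring
        rw [h1]
        refine lt_of_le_of_lt (mul_le_mul_of_nonneg_right ?_ (by positivity)) hp'
        linarith
      · rw [← Polynomial.coeff_map, hπw, Polynomial.coeff_zero]
    have h1 : (yc z (k - 1) i₀ - yc z' (k - 1) i₀) =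
        D * ∑ i ∈ range k, ∑ l, xc z' i l * (xc z i l - xc z' i l) := by
      have h2 := hw0 (k - 1) (by omega)
      have h2' : b.repr (w.coeff (k - 1)) i₀ = 0 := by rw [h2]; simp
      rw [hw, Polynomial.coeff_sub, Polynomial.coeff_sub, map_sub, Finsupp.sub_apply, map_sub,
        Finsupp.sub_apply] at h2'
      have h3 : ((PX z - PX z') * PS z').coeff (k - 1) =
          ∑ i ∈ range k, (PX z - PX z').coeff i * ph b i₀ (xc z' i) := by
        rw [Polynomial.coeff_mul, Finset.Nat.sum_antidiagonal_eq_sum_range_succ_mk]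
        have hk1 : (k - 1).succ = k := by omega
        rw [hk1]
        refine Finset.sum_congr rfl fun i hi => ?_
        rw [Finset.mem_range] at hi
        simp only [PS]
        rw [pl99_coeff, if_pos (by omega)]
        simp only [sr]
        rw [show k - 1 - (k - 1 - i) = i by omega]
      rw [h3, map_sum, Finsupp.finsetSum_apply] at h2'
      have h4 : ∑ i ∈ range k, b.repr ((PX z - PX z').coeff i * ph b i₀ (xc z' i)) i₀ =
          D * ∑ i ∈ range k, ∑ l, xc z' i l * (xc z i l - xc z' i l) := by
        rw [Finset.mul_sum]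
        refine Finset.sum_congr rfl fun i hi => ?_
        rw [Finset.mem_range] at hi
        rw [mul_comm, ph_pair]
        congr 1
        refine Finset.sum_congr rfl fun l _ => ?_
        rw [hXX, if_pos hi]
      rw [h4] at h2'
      simp only [PY] at h2'
      rw [pl99_coeff, pl99_coeff, if_pos (by omega), if_pos (by omega), hY, hY] at h2'
      linarith
    have hcz : 2 * yc z (k - 1) i₀ - D * ∑ i ∈ range k, ∑ l, xc z i l ^ 2 =
        2 * yc z' (k - 1) i₀ - D * ∑ i ∈ range k, ∑ l, xc z' i l ^ 2 := hz.trans hz'.symm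
    have h2 : D * ∑ i ∈ range k, ∑ l, (xc z i l - xc z' i l) ^ 2 = 0 := by
      have h3 : ∑ i ∈ range k, ∑ l, (xc z i l - xc z' i l) ^ 2 =
          ∑ i ∈ range k, ∑ l, xc z i l ^ 2 - ∑ i ∈ range k, ∑ l, xc z' i l ^ 2 -
          2 * ∑ i ∈ range k, ∑ l, xc z' i l * (xc z i l - xc z' i l) := by
        rw [Finset.mul_sum, ← Finset.sum_sub_distrib, ← Finset.sum_sub_distrib]
        refine Finset.sum_congr rfl fun i _ => ?_
        rw [Finset.mul_sum, ← Finset.sum_sub_distrib, ← Finset.sum_sub_distrib]
        refine Finset.sum_congr rfl fun l _ => ?_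
        ring
      rw [h3]
      linear_combination hcz.symm + 2 * h1
    have h3 : ∑ i ∈ range k, ∑ l, (xc z i l - xc z' i l) ^ 2 = 0 :=
      (mul_eq_zero.1 h2).resolve_left hD0
    have h4 : ∀ i l, xc z i l = xc z' i l := by
      intro i l
      by_cases hi : i < k
      · have h5 := (Finset.sum_eq_zero_iff_of_nonneg fun i _ =>
          Finset.sum_nonneg fun l _ => sq_nonneg _).1 h3 i (Finset.mem_range.2 hi)
        have h5' := (Finset.sum_eq_zero_iff_of_nonneg fun l _ => sq_nonneg _).1 h5 l
          (Finset.mem_univ l)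
        have h6 := pow_eq_zero_iff (two_ne_zero) |>.1 h5'
        linarith
      · simp only [xc]
        rw [dif_neg hi, dif_neg hi]
    have hPX : PX z = PX z' := by
      simp only [PX, xr, h4]
    have h6 : ∀ i l, i < h → yc z i l = yc z' i l := by
      intro i l hi
      have h7 := hw0 i hi
      rw [hw, hPX, sub_self, zero_mul, sub_zero, Polynomial.coeff_sub] at h7
      simp only [PY] at h7
      rw [pl99_coeff, pl99_coeff, if_pos hi, if_pos hi] at h7
      rw [← hY, ← hY, sub_eq_zero.1 h7]
    apply Subtype.ext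
    change z = z'
    refine Prod.ext (funext fun i => funext fun l => Fin.ext ?_)
      (funext fun i => funext fun l => Fin.ext ?_)
    · have := h4 i l
      simp only [xc] at this
      rw [dif_pos i.2, dif_pos i.2] at this
      exact_mod_cast this
    · have := h6 i l i.2
      simp only [yc] at this
      rw [dif_pos i.2, dif_pos i.2] at this
      exact_mod_cast this

end ring

end Pool.Agent.Helper99.DS
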