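import Pool.Agent.Helper99.DS.All

/-!
# Strong representative systems and the numbers of dominating sets
-/

set_option autoImplicit false

namespace Pool.Agent.Helper99.DS

open Finset Pool.Agent.Helper1.DS

/-- The largest number of flags (a point and a line through it) such that no point of a flag is on
the line of another flag. -/
noncomputable def srsNum (P L : Type*) [Membership P L] : ℕ :=
  sSup {n : ℕ | ∃ (f : Fin n → P) (g : Fin n → L), ∀ i j, f i ∈ g j ↔ i = j}

section srs

variable (P L : Type*) [Membership P L] [Fintype P] [Fintype L]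

theorem srs_bdd99 :
    BddAbove {n : ℕ | ∃ (f : Fin n → P) (g : Fin n → L), ∀ i j, f i ∈ g j ↔ i = j} := by
  refine ⟨Fintype.card P, ?_⟩
  rintro n ⟨f, g, h⟩
  have hinj : Function.Injective f := by
    intro i j hij
    rw [← h i j, hij, h j j]
  simpa using Fintype.card_le_of_injective f hinj

theorem srs_le99 : (srsNum P L : ℝ) ≤ Real.logb 2 (iNum P L) := by
  have hne : {n : ℕ | ∃ (f : Fin n → P) (g : Fin n → L), ∀ i j, f i ∈ g j ↔ i = j}.Nonempty :=
    ⟨0, Fin.elim0, Fin.elim0, fun i => Fin.elim0 i⟩
  obtain ⟨f, g, h⟩ := Nat.sSup_mem hne (srs_bdd99 P L)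
  have h1 := two_pow_le_iNum f g h
  rw [Nat.card_eq_fintype_card, Fintype.card_fin] at h1
  have h2 : (0 : ℝ) < (iNum P L : ℝ) := by
    exact_mod_cast lt_of_lt_of_le (by positivity) h1
  rw [Real.le_logb_iff_rpow_le (by norm_num) h2, Real.rpow_natCast]
  exact_mod_cast h1

variable {P L}

theorem tang_le_srs99 {T : Finset P} (hT : Tang (fun (p : P) (l : L) => p ∈ l) T) :
    T.card ≤ srsNum P L := by
  classical
  choose b hb1 hb2 using hT
  apply le_csSup (srs_bdd99 P L)
  let e : T ≃ Fin T.card := T.equivFin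
  refine ⟨fun i => (e.symm i).1, fun i => b (e.symm i).1 (e.symm i).2, fun i j => ?_⟩
  constructor
  · intro h
    have h1 := hb2 (e.symm j).1 (e.symm j).2 (e.symm i).1 (e.symm i).2 h
    exact e.symm.injective (Subtype.ext h1)
  · rintro rfl
    exact hb1 _ _

theorem tang_le_srs99' {T : Finset L} (hT : Tang (fun (l : L) (p : P) => p ∈ l) T) :
    T.card ≤ srsNum P L := by
  classical
  choose b hb1 hb2 using hT
  apply le_csSup (srs_bdd99 P L)
  let e : T ≃ Fin T.card := T.equivFin
  refine ⟨fun i => b (e.symm i).1 (e.symm i).2, fun i => (e.symm i).1, fun i j => ?_⟩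
  constructor
  · intro h
    have h1 := hb2 (e.symm i).1 (e.symm i).2 (e.symm j).1 (e.symm j).2 h
    exact (e.symm.injective (Subtype.ext h1)).symm
  · rintro rfl
    exact hb1 _ _

theorem card_small99 {α : Type*} [Fintype α] (s : ℕ) (A : Finset (Finset α))
    (hA : ∀ T ∈ A, T.card ≤ s) : A.card ≤ (Fintype.card α + 1) ^ s := by
  classical
  let F : (Fin s → Option α) → Finset α := fun φ => univ.filter fun a => ∃ i, φ i = some a
  have h1 : A ⊆ univ.image F := by
    intro T hT
    have h2 : Fintype.card T ≤ Fintype.card (Fin s) := by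
      simpa using hA T hT
    obtain ⟨e⟩ := Function.Embedding.nonempty_of_card_le h2
    rw [Finset.mem_image]
    refine ⟨fun i => if h : ∃ a : T, e a = i then some h.choose.1 else none, Finset.mem_univ _, ?_⟩
    ext a
    simp only [F, Finset.mem_filter, Finset.mem_univ, true_and]
    constructor
    · rintro ⟨i, hi⟩
      split_ifs at hi with h3
      rw [Option.some.injEq] at hi
      rw [← hi]
      exact h3.choose.2
    · intro ha
      refine ⟨e ⟨a, ha⟩, ?_⟩
      have h3 : ∃ a' : T, e a' = e ⟨a, ha⟩ := ⟨_, rfl⟩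
      rw [dif_pos h3]
      have h4 := e.injective h3.choose_spec
      rw [h4]
  refine (Finset.card_le_card h1).trans (Finset.card_image_le.trans ?_)
  rw [Finset.card_univ, Fintype.card_fun, Fintype.card_option, Fintype.card_fin]

end srs

section plane

open Configuration

variable (P L : Type*) [Membership P L] [ProjectivePlane P L] [Fintype P] [Fintype L]

theorem mNum_srs99 : Real.logb 2 (mNum P L) ≤
    3 * (2 * Real.logb 2 (ProjectivePlane.order P L) + 1) * srsNum P L := by
  classical
  set q := ProjectivePlane.order P L with hq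
  have hq1 : 1 < q := ProjectivePlane.one_lt_order P L
  set s := srsNum P L with hs
  have hX : (univ.filter fun T : Finset P => Tang (fun (p : P) (l : L) => p ∈ l) T).card ≤
      (q ^ 2 + q + 2) ^ s := by
    refine (card_small99 s _ fun T hT => ?_).trans (le_of_eq ?_)
    · exact tang_le_srs99 (Finset.mem_filter.1 hT).2
    · rw [ProjectivePlane.card_points P L]
  have hY : (univ.filter fun T : Finset L => Tang (fun (l : L) (p : P) => p ∈ l) T).card ≤
      (q ^ 2 + q + 2) ^ s := by
    refine (card_small99 s _ fun T hT => ?_).trans (le_of_eq ?_)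
    · exact tang_le_srs99' (Finset.mem_filter.1 hT).2
    · rw [ProjectivePlane.card_lines P L]
  have hqq : q ^ 2 + q + 2 ≤ 2 * q ^ 2 := by nlinarith
  have hm : mNum P L ≤ (2 * q ^ 2) ^ (3 * s) := by
    refine (mNum_le P L).trans ?_
    have hX' := hX.trans (Nat.pow_le_pow_left hqq s)
    have hY' := hY.trans (Nat.pow_le_pow_left hqq s)
    calc _ ≤ (2 * q ^ 2) ^ s * ((2 * q ^ 2) ^ s * (2 * q ^ 2) ^ s) :=
          Nat.mul_le_mul hX' (Nat.mul_le_mul hX' hY')
      _ = (2 * q ^ 2) ^ (3 * s) := by ring
  have hqpos : (0 : ℝ) < q := by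
    have : 0 < q := by omega
    exact_mod_cast this
  have hq1' : (1 : ℝ) < q := by exact_mod_cast hq1
  have hℓ : 0 ≤ Real.logb 2 (q : ℝ) := Real.logb_nonneg (by norm_num) hq1'.le
  rcases Nat.eq_zero_or_pos (mNum P L) with h0 | h0
  · rw [h0]
    simp only [Nat.cast_zero, Real.logb_zero]
    positivity
  · have h1 : Real.logb 2 (mNum P L) ≤ Real.logb 2 ((2 * (q : ℝ) ^ 2) ^ (3 * s)) := by
      apply Real.logb_le_logb_of_le (by norm_num) (by exact_mod_cast h0)
      exact_mod_cast hm
    rw [Real.logb_pow, Real.logb_mul (by norm_num) (by positivity),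
      Real.logb_self_eq_one (by norm_num), Real.logb_pow] at h1
    push_cast at h1
    refine h1.trans (le_of_eq ?_)
    ring

end plane

end Pool.Agent.Helper99.DS
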