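import Pool.Agent.Helper99.DS.Main
import Pool.Agent.Helper1.DS.Upper

/-!
# Desarguesian planes: uniform lower bounds
-/

set_option autoImplicit false

namespace Pool.Agent.Helper99.DS

open Finset Module Pool.Agent.Helper1.DS Configuration

open scoped LinearAlgebra.Projectivization

universe u

theorem even_lower99 {p t : ℕ} (hp : 1 ≤ p) (F : Type u) [Field F] [Finite F]
    (hF : Nat.card F = p ^ (2 * t)) {a : ℝ} (ha : a ≤ 3 / 2) :
    (Nat.card F : ℝ) ^ a ≤ Real.logb 2 (iNum (ℙ F (Fin 3 → F)) (ℙ F (Fin 3 → F))) := by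
  have h1 := unital_lower (K := F) (r := p ^ t) (by rw [hF, ← pow_mul, mul_comm])
  have h2 := le_logb99 h1
  have h3 : (1 : ℝ) ≤ Nat.card F := by
    rw [hF]
    exact_mod_cast Nat.one_le_pow _ _ hp
  refine (Real.rpow_le_rpow_of_exponent_le h3 ha).trans ?_
  have h4 : (Nat.card F : ℝ) ^ (3 / 2 : ℝ) = (((p ^ t) ^ 3 : ℕ) : ℝ) := by
    rw [hF]
    push_cast
    rw [← Real.rpow_natCast, ← Real.rpow_natCast, ← Real.rpow_mul (by positivity),
      ← Real.rpow_natCast, ← Real.rpow_mul (by positivity)]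
    congr 1
    push_cast
    ring
  rw [h4]
  exact h2

/-- The uniform lower bound for Desarguesian planes. -/
theorem des_lower99 {ε : ℝ} (hε : 0 < ε) :
    ∃ q₀ : ℕ, ∀ (p h : ℕ) (F : Type u) [Field F] [Finite F], p.Prime → Nat.card F = p ^ h →
      q₀ ≤ Nat.card F →
        (Nat.card F : ℝ) ^ (5 / 4 + 1 / (4 * h) - ε : ℝ) ≤
          Real.logb 2 (iNum (ℙ F (Fin 3 → F)) (ℙ F (Fin 3 → F))) := by
  have key : ∀ h : ℕ, ∃ p₀ : ℕ, Odd h → ∀ p : ℕ, p.Prime → p₀ ≤ p →
      ∀ (F : Type u) [Field F] [Finite F], Nat.card F = p ^ h →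
        (Nat.card F : ℝ) ^ (5 / 4 + 1 / (4 * h) - ε : ℝ) ≤
          Real.logb 2 (iNum (ℙ F (Fin 3 → F)) (ℙ F (Fin 3 → F))) := by
    intro h
    by_cases hh : Odd h
    · obtain ⟨p₀, hp₀⟩ := odd_lower99.{u} hh hε
      exact ⟨p₀, fun _ => hp₀⟩
    · exact ⟨0, fun h => absurd h hh⟩
  choose p₀ hp₀ using key
  set h₀ : ℕ := ⌈1 / ε⌉₊ with hh₀
  refine ⟨∑ h ∈ range h₀, p₀ h ^ h, fun p h F _ _ hpp hF hq => ?_⟩
  have hone : 1 < Nat.card F := Finite.one_lt_card
  have hh1 : 0 < h := by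
    rcases Nat.eq_zero_or_pos h with h0 | h0
    · rw [h0, pow_zero] at hF
      omega
    · exact h0
  have hh1' : (1 : ℝ) ≤ h := by exact_mod_cast hh1
  rcases Nat.even_or_odd h with he | ho
  · obtain ⟨t, ht⟩ := he
    refine even_lower99 hpp.one_lt.le (t := t) F (by rw [hF, ht]; congr 1; ring) ?_
    have h2 : (1 : ℝ) / (4 * h) ≤ 1 / 4 := by
      rw [div_le_div_iff₀ (by positivity) (by norm_num)]
      linarith
    linarith
  · by_cases hlt : h < h₀
    · refine hp₀ h ho p hpp ?_ F hF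
      by_contra hcon
      rw [not_le] at hcon
      have h1 : p ^ h < p₀ h ^ h := Nat.pow_lt_pow_left hcon hh1.ne'
      have h2 : p₀ h ^ h ≤ ∑ h ∈ range h₀, p₀ h ^ h :=
        Finset.single_le_sum (f := fun h => p₀ h ^ h) (fun _ _ => Nat.zero_le _)
          (Finset.mem_range.2 hlt)
      omega
    · have : Fact p.Prime := ⟨hpp⟩
      obtain ⟨_, hfr⟩ := alg99 F hh1 hF
      have h1 := ext_lower99 (k := ZMod p) (F := F) (r := (h + 1) / 4) (by
        rw [hfr]; omega)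
      rw [hfr, Nat.card_zmod] at h1
      have h2 := le_logb99 h1
      rw [hF]
      refine rpow_le99 hpp.one_lt.le (b := ((h + (h + 1) / 4 : ℕ) : ℝ)) ?_ ?_
      · have h3 : 1 / ε ≤ (h : ℝ) := by
          have h4 : 1 / ε ≤ (h₀ : ℝ) := Nat.le_ceil _
          have h5 : (h₀ : ℝ) ≤ (h : ℝ) := by exact_mod_cast not_lt.1 hlt
          linarith
        rw [div_le_iff₀ hε] at h3
        have h4 : ((h : ℝ) - 1) ≤ 4 * (((h + 1) / 4 : ℕ) : ℝ) := by
          have : h ≤ 4 * ((h + 1) / 4) + 1 := by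
            obtain ⟨t, ht⟩ := ho
            omega
          have h5 : ((h : ℝ)) ≤ 4 * (((h + 1) / 4 : ℕ) : ℝ) + 1 := by exact_mod_cast this
          linarith
        rw [Nat.cast_add]
        have h5 : (h : ℝ) * (5 / 4 + 1 / (4 * h) - ε) = 5 / 4 * h + 1 / 4 - h * ε := by
          field_simp
        rw [h5]
        linarith
      · rw [Real.rpow_natCast]
        exact_mod_cast h2

/-- Uniform in the polynomial. -/
theorem small_lower99 (h T : ℕ) (hh : 0 < h) {ε : ℝ} (hε : 0 < ε) :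
    ∃ p₀ : ℕ, ∀ p : ℕ, p.Prime → p₀ ≤ p →
      (∃ f : Polynomial ℤ, f.Monic ∧ f.natDegree = h ∧ (∀ i, |f.coeff i| ≤ T) ∧
        Irreducible (f.map (Int.castRingHom (ZMod p)))) →
      ∀ (F : Type u) [Field F] [Finite F], Nat.card F = p ^ h →
        (Nat.card F : ℝ) ^ (3 / 2 - ε) ≤
          Real.logb 2 (iNum (ℙ F (Fin 3 → F)) (ℙ F (Fin 3 → F))) := by
  classical
  let fp : (Fin h → Fin (2 * T + 1)) → Polynomial ℤ := fun c =>
    Polynomial.X ^ h + ∑ i : Fin h, Polynomial.monomial (i : ℕ) (((c i : ℕ) : ℤ) - T)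
  have key : ∀ c : Fin h → Fin (2 * T + 1), ∃ p₀ : ℕ, (fp c).Monic → (fp c).natDegree = h →
      ∀ p : ℕ, p.Prime → p₀ ≤ p → Irreducible ((fp c).map (Int.castRingHom (ZMod p))) →
      ∀ (F : Type u) [Field F] [Finite F], Nat.card F = p ^ h →
        (Nat.card F : ℝ) ^ (3 / 2 - ε) ≤
          Real.logb 2 (iNum (ℙ F (Fin 3 → F)) (ℙ F (Fin 3 → F))) := by
    intro c
    by_cases hc : (fp c).Monic ∧ (fp c).natDegree = h
    · obtain ⟨p₀, hp₀⟩ := irr_lower99.{u} hc.1 (by rw [hc.2]; exact hh) hε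
      rw [hc.2] at hp₀
      exact ⟨p₀, fun _ _ => hp₀⟩
    · exact ⟨0, fun h1 h2 => absurd ⟨h1, h2⟩ hc⟩
  choose p₀ hp₀ using key
  refine ⟨∑ c, p₀ c, ?_⟩
  rintro p hpp hp ⟨f, hf, hfd, hfT, hirr⟩
  have hex : ∃ c, fp c = f := by
    have hlt : ∀ i : Fin h, (f.coeff i + T).toNat < 2 * T + 1 := by
      intro i
      have h1 := abs_le.1 (hfT i)
      rw [Int.toNat_lt (by linarith)]
      push_cast
      linarith
    refine ⟨fun i => ⟨(f.coeff i + T).toNat, hlt i⟩, ?_⟩
    ext j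
    simp only [fp]
    rw [Polynomial.coeff_add, Polynomial.coeff_X_pow, Polynomial.finsetSum_coeff]
    simp only [Polynomial.coeff_monomial]
    by_cases hj : j < h
    · rw [if_neg hj.ne, zero_add, Finset.sum_eq_single (⟨j, hj⟩ : Fin h)]
      · have h1 := abs_le.1 (hfT j)
        rw [if_pos rfl]
        simp only
        rw [Int.toNat_of_nonneg (by linarith)]
        ring
      · intro b _ hb
        rw [if_neg]
        intro h1
        exact hb (Fin.ext h1)
      · intro h1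
        exact absurd (Finset.mem_univ _) h1
    · have h1 : ∑ x : Fin h, (if (x : ℕ) = j then ((((f.coeff x + T).toNat : ℕ) : ℤ) - T) else 0)
          = 0 := by
        refine Finset.sum_eq_zero fun x _ => ?_
        rw [if_neg]
        have := x.2
        omega
      rw [h1, add_zero]
      split_ifs with h2
      · rw [h2, ← hfd]
        exact hf.coeff_natDegree.symm
      · rw [Polynomial.coeff_eq_zero_of_natDegree_lt]
        omega
  obtain ⟨c, rfl⟩ := hex
  exact hp₀ c hf hfd p hpp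
    ((Finset.single_le_sum (f := p₀) (fun _ _ => Nat.zero_le _) (Finset.mem_univ c)).trans hp) hirr

/-- The upper bound and the order of the plane over a finite field. -/
theorem des_upper99 (F : Type u) [Field F] [Finite F] :
    Real.logb 2 (iNum (ℙ F (Fin 3 → F)) (ℙ F (Fin 3 → F))) ≤
      Real.logb 2 (mNum (ℙ F (Fin 3 → F)) (ℙ F (Fin 3 → F))) ∧
    Real.logb 2 (mNum (ℙ F (Fin 3 → F)) (ℙ F (Fin 3 → F))) ≤
      666 * (Nat.card F : ℝ) ^ (3 / 2 : ℝ) := by
  classical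
  have : Fintype (ℙ F (Fin 3 → F)) := Fintype.ofFinite _
  refine ⟨?_, ?_⟩
  · rcases Nat.eq_zero_or_pos (iNum (ℙ F (Fin 3 → F)) (ℙ F (Fin 3 → F))) with h0 | h0
    · rw [h0]
      rcases Nat.eq_zero_or_pos (mNum (ℙ F (Fin 3 → F)) (ℙ F (Fin 3 → F))) with h1 | h1
      · rw [h1]
      · rw [Nat.cast_zero, Real.logb_zero]
        exact Real.logb_nonneg (by norm_num) (by exact_mod_cast h1)
    · apply Real.logb_le_logb_of_le (by norm_num) (by exact_mod_cast h0)
      exact_mod_cast iNum_le_mNum _ _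
  · have h1 := mNum_upper (ℙ F (Fin 3 → F)) (ℙ F (Fin 3 → F))
    rw [order_eq] at h1
    exact h1

end Pool.Agent.Helper99.DS
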